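import Pool.Agent.W515.SLP.Ann

/-!
# The weak Lefschetz property from injectivity in the middle degree
-/

open MvPolynomial Finset Module

namespace Pool.Agent.TH274.PT

open Pool.Agent.W515.SLP

variable {K : Type*} [Field K] {n : ℕ} {φ : MvPolynomial (Fin n) K →ₗ[K] K} {D : ℕ}

/-- `ℓ : A_i → A_{i+1}` is injective. -/
def Inj (φ : MvPolynomial (Fin n) K →ₗ[K] K) (ℓ : MvPolynomial (Fin n) K) (i : ℕ) : Prop :=
  ∀ f : MvPolynomial (Fin n) K, f.IsHomogeneous i → AnnP φ (ℓ * f) → AnnP φ f

lemma annP_of_X (hφ : Deg φ D) {i : ℕ} (hi : i < D) {b : MvPolynomial (Fin n) K}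
    (hb : b.IsHomogeneous i) (h2 : ∀ x, AnnP φ (X x * b)) : AnnP φ b := by
  apply annP_of_homog hφ (i := i) (by omega) hb
  intro v hv
  obtain ⟨m, hm⟩ : ∃ m, D - i = m + 1 := ⟨D - i - 1, by omega⟩
  rw [hm] at hv
  rw [v.as_sum, Finset.mul_sum, map_sum]
  apply Finset.sum_eq_zero
  intro s hs
  have hdeg : s.degree = m + 1 := by
    by_contra hne
    exact (mem_support_iff.1 hs) (hv.coeff_eq_zero hne)
  have hne : s ≠ 0 := by
    rintro rfl
    simp at hdeg
  obtain ⟨x, hx⟩ := Finsupp.ne_iff.1 hne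
  have hle : Finsupp.single x 1 ≤ s := by
    rw [Finsupp.single_le_iff]
    exact Nat.one_le_iff_ne_zero.2 hx
  have hs' : s = Finsupp.single x 1 + (s - Finsupp.single x 1) := (add_tsub_cancel_of_le hle).symm
  have e : monomial s (coeff s v) = X x * monomial (s - Finsupp.single x 1) (coeff s v) := by
    rw [X, monomial_mul, one_mul, ← hs']
  rw [e]
  have e2 : b * (X x * monomial (s - Finsupp.single x 1) (coeff s v)) =
      (X x * b) * monomial (s - Finsupp.single x 1) (coeff s v) := by ring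
  rw [e2]
  exact h2 x _

lemma inj_down_one (hφ : Deg φ D) {ℓ : MvPolynomial (Fin n) K} {i : ℕ} (hi : i < D)
    (h : Inj φ ℓ (i + 1)) : Inj φ ℓ i := by
  intro f hf h1
  apply annP_of_X hφ hi hf
  intro x
  apply h
  · rw [add_comm]
    exact (isHomogeneous_X K x).mul hf
  · have := h1.mul_left (X x)
    have e : X x * (ℓ * f) = ℓ * (X x * f) := by ring
    rwa [e] at this

lemma inj_down (hφ : Deg φ D) {ℓ : MvPolynomial (Fin n) K} {i j : ℕ} (hi : i ≤ D) (hji : j ≤ i)
    (h : Inj φ ℓ i) : Inj φ ℓ j := by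
  induction hji using Nat.decreasingInduction with
  | self => exact h
  | of_succ k hk ih => exact inj_down_one hφ (by omega) ih

/-- Duality. -/
theorem surj_of_inj (hφ : Deg φ D) {ℓ : MvPolynomial (Fin n) K} (hℓ : ℓ.IsHomogeneous 1)
    {i k : ℕ} (h2 : i + k ≤ D)
    (hinj : ∀ u : MvPolynomial (Fin n) K, u.IsHomogeneous (D - (i + k)) →
      AnnP φ (ℓ ^ k * u) → AnnP φ u)
    {h : MvPolynomial (Fin n) K} (hh : h.IsHomogeneous (i + k)) :
    ∃ g : MvPolynomial (Fin n) K, g.IsHomogeneous i ∧ AnnP φ (h - ℓ ^ k * g) := by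
  set i' := D - (i + k) with hi'
  have : Module.Finite K (homogeneousSubmodule (Fin n) K i') :=
    Module.Finite.iff_fg.2 (homogeneousSubmodule_fg _ _ i')
  let Λ : homogeneousSubmodule (Fin n) K i →ₗ[K]
      Module.Dual K (homogeneousSubmodule (Fin n) K i') :=
    LinearMap.mk₂ K (fun g u => φ (ℓ ^ k * (g : MvPolynomial (Fin n) K) *
      (u : MvPolynomial (Fin n) K)))
      (by intro a b c; simp [mul_add, add_mul])
      (by intro a b c; simp)
      (by intro a b c; simp [mul_add])
      (by intro a b c; simp)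
  let ψ : Module.Dual K (homogeneousSubmodule (Fin n) K i') :=
    { toFun := fun u => φ (h * (u : MvPolynomial (Fin n) K))
      map_add' := by intro a b; simp [mul_add]
      map_smul' := by intro a b; simp }
  have hmem : ψ ∈ LinearMap.range Λ := by
    rw [← Subspace.dualCoannihilator_dualAnnihilator_eq (W := LinearMap.range Λ)]
    rw [Submodule.mem_dualAnnihilator]
    intro u hu
    rw [Submodule.mem_dualCoannihilator] at hu
    have hu2 : ∀ g : MvPolynomial (Fin n) K, g.IsHomogeneous i →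
        φ (ℓ ^ k * g * (u : MvPolynomial (Fin n) K)) = 0 := by
      intro g hg
      exact hu (Λ ⟨g, hg⟩) ⟨_, rfl⟩
    have hu3 : AnnP φ (ℓ ^ k * (u : MvPolynomial (Fin n) K)) := by
      apply annP_of_homog hφ (i := k + i') (by omega)
      · have := (hℓ.pow k).mul u.2
        simpa using this
      · intro v hv
        have h4 : D - (k + i') = i := by omega
        rw [h4] at hv
        have h5 := hu2 v hv
        rw [← h5]
        congr 1
        ring
    have hu4 : AnnP φ (u : MvPolynomial (Fin n) K) := hinj u u.2 hu3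
    change φ (h * (u : MvPolynomial (Fin n) K)) = 0
    rw [mul_comm]
    exact hu4 h
  obtain ⟨g, hg⟩ := hmem
  refine ⟨g, g.2, ?_⟩
  apply annP_of_homog hφ (i := i + k) (by omega)
  · apply IsHomogeneous.sub hh
    have := (hℓ.pow k).mul g.2
    rw [one_mul, add_comm] at this
    exact this
  · intro v hv
    have h6 := LinearMap.congr_fun hg ⟨v, hv⟩
    have h7 : φ (ℓ ^ k * (g : MvPolynomial (Fin n) K) * v) = φ (h * v) := h6
    rw [sub_mul, map_sub, h7, sub_self]

/-- The weak Lefschetz property from injectivity at the middle. -/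
theorem wlp_of_inj (hφ : Deg φ D) (hD : 1 ≤ D) {ℓ : MvPolynomial (Fin n) K}
    (hℓ : ℓ.IsHomogeneous 1) (h : Inj φ ℓ ((D - 1) / 2)) (d : ℕ) :
    (∀ f : MvPolynomial (Fin n) K, f.IsHomogeneous d → AnnP φ (ℓ * f) → AnnP φ f) ∨
    (∀ g : MvPolynomial (Fin n) K, g.IsHomogeneous (d + 1) →
      ∃ f : MvPolynomial (Fin n) K, f.IsHomogeneous d ∧ AnnP φ (g - ℓ * f)) := by
  by_cases h1 : d ≤ (D - 1) / 2
  · exact Or.inl (inj_down hφ (by omega) h1 h)
  · right
    intro g hg
    by_cases h2 : D < d + 1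
    · refine ⟨0, isHomogeneous_zero _ _ _, ?_⟩
      rw [mul_zero, sub_zero]
      exact annP_of_gt hφ h2 hg
    · obtain ⟨f, hf, hf2⟩ := surj_of_inj (k := 1) hφ hℓ (i := d) (by omega) (by
        intro u hu hu2
        rw [pow_one] at hu2
        exact inj_down hφ (i := (D - 1) / 2) (by omega) (by omega) h u hu hu2) hg
      rw [pow_one] at hf2
      exact ⟨f, hf, hf2⟩

end Pool.Agent.TH274.PT
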