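import Pool.Agent.H500R2.WLP.Final
import Pool.Agent.W515.SLP.Ann

/-!
# Artinian reductions of Gorenstein point sets as quotients by the annihilator of a functional
-/

open MvPolynomial Finset Module

namespace Pool.Agent.TH274.PT

open Pool.Agent.W515.SLP Pool.Agent.H500R2.WLP

variable {K : Type*} [Field K] {n : ℕ}

/-- The functional `f ↦ ∑_p φ_p f_D(p) / L_c(p)`. -/
noncomputable def phiC (Z : Finset (Fin (n + 1) → K)) (D : ℕ) (φ : Z → K)
    (c : Fin (n + 1) → K) : MvPolynomial (Fin (n + 1)) K →ₗ[K] K :=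
  ∑ p : Z, (φ p / ev Z (H500R2.WLP.lin c) p) • ((LinearMap.proj p : (Z → K) →ₗ[K] K).comp
    ((ev Z).toLinearMap.comp (homogeneousComponent D)))

variable {Z : Finset (Fin (n + 1) → K)} {D : ℕ} {φ : Z → K} {c : Fin (n + 1) → K}

lemma phiC_apply (f : MvPolynomial (Fin (n + 1)) K) : phiC Z D φ c f =
    ∑ p : Z, φ p / ev Z (H500R2.WLP.lin c) p * ev Z (homogeneousComponent D f) p := by
  simp [phiC, LinearMap.sum_apply]

lemma phiC_hom {f : MvPolynomial (Fin (n + 1)) K} (hf : f.IsHomogeneous D) :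
    phiC Z D φ c f = ∑ p : Z, φ p / ev Z (H500R2.WLP.lin c) p * ev Z f p := by
  rw [phiC_apply, homogeneousComponent_eq_self hf]

lemma deg_phiC : Deg (phiC Z D φ c) D := by
  intro i hi g hg
  rw [phiC_apply, homogeneousComponent_of_mem ((mem_homogeneousSubmodule i g).2 hg),
    if_neg (fun h => hi h.symm)]
  simp

/-- Duality data for a finite set of points. -/
structure Dual (Z : Finset (Fin (n + 1) → K)) (D : ℕ) (φ : Z → K) : Prop where
  pos : 1 ≤ D
  one : (1 : Z → K) ∈ Rd Z 1
  top : Rd Z D = ⊤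
  ne : ∀ p, φ p ≠ 0
  dual : ∀ j, j < D → ∀ f : Z → K, (∀ g ∈ Rd Z j, ∑ i, φ i * f i * g i = 0) ↔
    f ∈ Rd Z (D - 1 - j)

lemma Dual.mono (_h : Dual Z D φ) {a b : ℕ} (hab : a ≤ b) : Rd Z a ≤ Rd Z b :=
  R_mono (Rd Z) _h.one (rd_succ Z) hab

/-- Membership in the ideal of the Artinian reduction. -/
theorem link (h : Dual Z D φ) (hx : ∀ p, ev Z (H500R2.WLP.lin c) p ≠ 0) {j : ℕ}
    {f : MvPolynomial (Fin (n + 1)) K} (hf : f.IsHomogeneous j) :
    f ∈ IZ Z ⊔ Ideal.span {H500R2.WLP.lin c} ↔ AnnP (phiC Z D φ c) f := by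
  classical
  rcases Nat.lt_or_ge D j with hj | hj
  · constructor
    · intro _
      exact annP_of_gt deg_phiC hj hf
    · intro _
      obtain ⟨j', rfl⟩ : ∃ j', j = j' + 1 := ⟨j - 1, by omega⟩
      apply in_J_of_top Z c hx j' _ f hf
      rw [eq_top_iff, ← h.top]
      exact h.mono (by omega)
  rcases Nat.eq_zero_or_pos j with h0 | h0
  · subst h0
    rw [mem_J_zero Z c f hf]
    constructor
    · intro h1
      apply annP_of_homog deg_phiC hj hf
      intro v hv
      have h2 : (f * v).IsHomogeneous D := by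
        have := hf.mul hv
        rwa [Nat.zero_add, Nat.sub_zero] at this
      rw [phiC_hom h2]
      apply Finset.sum_eq_zero
      intro p _
      rw [map_mul, h1, zero_mul, Pi.zero_apply, mul_zero]
    · intro h1
      funext p
      have h2 : (Pi.single p 1 : Z → K) ∈ Rd Z D := by rw [h.top]; exact Submodule.mem_top
      obtain ⟨v, hv, hv2⟩ := (mem_Rd Z D _).1 h2
      have h3 : (f * v).IsHomogeneous D := by
        have := hf.mul hv
        rwa [Nat.zero_add] at this
      have h4 := h1 v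
      rw [phiC_hom h3, Finset.sum_eq_single p] at h4
      · rw [map_mul, hv2, Pi.mul_apply, Pi.single_eq_same, mul_one] at h4
        rcases mul_eq_zero.1 h4 with h5 | h5
        · exact absurd h5 (div_ne_zero (h.ne p) (hx p))
        · exact h5
      · intro q _ hq
        rw [map_mul, hv2, Pi.mul_apply, Pi.single_eq_of_ne hq, mul_zero, mul_zero]
      · intro h5
        exact absurd (Finset.mem_univ _) h5
  obtain ⟨j', rfl⟩ : ∃ j', j = j' + 1 := ⟨j - 1, by omega⟩
  have e1 : D - 1 - (D - (j' + 1)) = j' := by omega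
  have hd := h.dual (D - (j' + 1)) (by omega)
  rw [e1] at hd
  rw [mem_J Z c j' f hf]
  constructor
  · rintro ⟨g, hg, hge⟩
    apply annP_of_homog deg_phiC hj hf
    intro v hv
    have h2 : (f * v).IsHomogeneous D := by
      have := hf.mul hv
      rwa [Nat.add_sub_cancel' hj] at this
    rw [phiC_hom h2, ← (hd g).2 hg (ev Z v) ((mem_Rd Z _ _).2 ⟨v, hv, rfl⟩)]
    apply Finset.sum_congr rfl
    intro p _
    have := hx p
    rw [map_mul, hge, Pi.mul_apply, Pi.mul_apply]
    field_simp
  · intro h1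
    refine ⟨fun p => ev Z f p / ev Z (H500R2.WLP.lin c) p, ?_, ?_⟩
    · rw [← hd]
      intro g hg
      obtain ⟨v, hv, rfl⟩ := (mem_Rd Z _ _).1 hg
      have h2 : (f * v).IsHomogeneous D := by
        have := hf.mul hv
        rwa [Nat.add_sub_cancel' hj] at this
      have h4 := h1 v
      rw [phiC_hom h2] at h4
      rw [← h4]
      apply Finset.sum_congr rfl
      intro p _
      rw [map_mul, Pi.mul_apply]
      ring
    · funext p
      have := hx p
      rw [Pi.mul_apply]
      field_simp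

end Pool.Agent.TH274.PT
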