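import Pool.Agent.H500R2.WLP.Final

/-!
# Rescaling the points
-/

open MvPolynomial Finset Module

namespace Pool.Agent.TH274.PT

open Pool.Agent.H500R2.WLP

variable {K : Type*} [Field K] {n : ℕ}

/-- The rescaling factor. -/
noncomputable def scl (c1 : Fin (n + 1) → K) (p : Fin (n + 1) → K) : K :=
  (eval p (lin c1))⁻¹

open Classical in
/-- The rescaled set of points. -/
noncomputable def resc (Z : Finset (Fin (n + 1) → K)) (c1 : Fin (n + 1) → K) :
    Finset (Fin (n + 1) → K) := Z.image fun p => scl c1 p • p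

variable {Z : Finset (Fin (n + 1) → K)} {c1 : Fin (n + 1) → K}

lemma scl_ne (h : ∀ p ∈ Z, eval p (lin c1) ≠ 0) : ∀ p ∈ Z, scl c1 p ≠ 0 :=
  fun p hp => inv_ne_zero (h p hp)

lemma mem_resc {p' : Fin (n + 1) → K} : p' ∈ resc Z c1 ↔ ∃ p ∈ Z, scl c1 p • p = p' := by
  classical
  rw [resc, Finset.mem_image]

lemma IZ_resc (h : ∀ p ∈ Z, eval p (lin c1) ≠ 0) : IZ (resc Z c1) = IZ Z := by
  classical
  have := IZ_rescale Z (scl c1) (scl_ne h)
  rw [← this]
  congr 1

lemma eval_lin_smul (b : Fin (n + 1) → K) (t : K) (p : Fin (n + 1) → K) :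
    eval (t • p) (lin b) = t * eval p (lin b) := by
  simp only [eval_lin, Pi.smul_apply, smul_eq_mul, Finset.mul_sum]
  refine Finset.sum_congr rfl fun i _ => ?_
  ring

lemma resc_one (h : ∀ p ∈ Z, eval p (lin c1) ≠ 0) :
    ∀ p ∈ resc Z c1, eval p (lin c1) = 1 := by
  intro p hp
  obtain ⟨q, hq, rfl⟩ := mem_resc.1 hp
  rw [eval_lin_smul]
  exact inv_mul_cancel₀ (h q hq)

/-- The Hilbert function does not change. -/
lemma finrank_resc (h : ∀ p ∈ Z, eval p (lin c1) ≠ 0) (j : ℕ) :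
    finrank K (Rd (resc Z c1) j) = finrank K (Rd Z j) := by
  have hfin : Module.Finite K (homogeneousSubmodule (Fin (n + 1)) K j) :=
    Module.Finite.iff_fg.2 (homogeneousSubmodule_fg _ _ j)
  have hr : ∀ W : Finset (Fin (n + 1) → K), Rd W j =
      LinearMap.range ((ev W).toLinearMap.comp (homogeneousSubmodule (Fin (n + 1)) K j).subtype) := by
    intro W
    rw [LinearMap.range_comp, Submodule.range_subtype]
    rfl
  have hk : LinearMap.ker ((ev (resc Z c1)).toLinearMap.comp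
      (homogeneousSubmodule (Fin (n + 1)) K j).subtype) =
      LinearMap.ker ((ev Z).toLinearMap.comp
      (homogeneousSubmodule (Fin (n + 1)) K j).subtype) := by
    ext u
    rw [LinearMap.mem_ker, LinearMap.mem_ker]
    change ev (resc Z c1) (u : MvPolynomial (Fin (n + 1)) K) = 0 ↔
      ev Z (u : MvPolynomial (Fin (n + 1)) K) = 0
    rw [← mem_IZ _ j _ u.2, ← mem_IZ _ j _ u.2, IZ_resc h]
  have e1 := LinearMap.finrank_range_add_finrank_ker ((ev (resc Z c1)).toLinearMap.comp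
      (homogeneousSubmodule (Fin (n + 1)) K j).subtype)
  have e2 := LinearMap.finrank_range_add_finrank_ker ((ev Z).toLinearMap.comp
      (homogeneousSubmodule (Fin (n + 1)) K j).subtype)
  rw [hr, hr]
  rw [hk] at e1
  omega

/-- Interpolation in degree `D`. -/
def Interp (Z : Finset (Fin (n + 1) → K)) (D : ℕ) : Prop :=
  ∀ v : (Fin (n + 1) → K) → K, ∃ g : MvPolynomial (Fin (n + 1)) K, g.IsHomogeneous D ∧
    ∀ p ∈ Z, eval p g = v p

lemma top_resc {D : ℕ} (h : ∀ p ∈ Z, eval p (lin c1) ≠ 0) (hI : Interp Z D) :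
    Rd (resc Z c1) D = ⊤ := by
  classical
  rw [eq_top_iff]
  intro v _
  obtain ⟨g, hg, hgp⟩ := hI (fun p => if hp : scl c1 p • p ∈ resc Z c1 then
    (scl c1 p ^ D)⁻¹ * v ⟨_, hp⟩ else 0)
  refine (mem_Rd _ _ _).2 ⟨g, hg, ?_⟩
  funext p'
  obtain ⟨p, hp, hpp⟩ := mem_resc.1 p'.2
  have hmem : scl c1 p • p ∈ resc Z c1 := by rw [hpp]; exact p'.2
  have e : (⟨scl c1 p • p, hmem⟩ : resc Z c1) = p' := Subtype.ext hpp
  rw [ev_apply, ← hpp, C1_eval_smul D g hg, hgp p hp, dif_pos hmem, e, ← mul_assoc,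
    mul_inv_cancel₀ (pow_ne_zero _ (scl_ne h p hp)), one_mul]

lemma resc_inj {D : ℕ} (h : ∀ p ∈ Z, eval p (lin c1) ≠ 0) (hI : Interp Z D)
    {p q : Fin (n + 1) → K} (hp : p ∈ Z) (hq : q ∈ Z) (hpq : scl c1 p • p = scl c1 q • q) :
    p = q := by
  classical
  by_contra hne
  obtain ⟨g, hg, hgv⟩ := hI (fun r => if r = p then 1 else 0)
  have e1 := congrArg (fun r => eval r g) hpq
  simp only [C1_eval_smul D g hg] at e1
  rw [hgv p hp, hgv q hq, if_pos rfl, if_neg (Ne.symm hne), mul_zero, mul_one] at e1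
  exact pow_ne_zero D (scl_ne h p hp) e1

/-- The rescaled weights. -/
noncomputable def wt (Z : Finset (Fin (n + 1) → K)) (c1 : Fin (n + 1) → K) (D : ℕ)
    (φ : (Fin (n + 1) → K) → K) (p' : Fin (n + 1) → K) : K :=
  ∑ p ∈ Z, Set.indicator {p | scl c1 p • p = p'} (fun p => φ p / scl c1 p ^ (D - 1)) p

lemma wt_eq {D : ℕ} (h : ∀ p ∈ Z, eval p (lin c1) ≠ 0) (hI : Interp Z D)
    (φ : (Fin (n + 1) → K) → K) {p : Fin (n + 1) → K} (hp : p ∈ Z) :
    wt Z c1 D φ (scl c1 p • p) = φ p / scl c1 p ^ (D - 1) := by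
  rw [wt, Finset.sum_eq_single p]
  · exact Set.indicator_of_mem (s := {q | scl c1 q • q = scl c1 p • p}) rfl _
  · intro q hq hqp
    apply Set.indicator_of_notMem
    intro h1
    exact hqp (resc_inj h hI hq hp h1)
  · intro h1
    exact absurd hp h1

lemma sum_wt {D : ℕ} (h : ∀ p ∈ Z, eval p (lin c1) ≠ 0)
    (φ : (Fin (n + 1) → K) → K) {g : MvPolynomial (Fin (n + 1)) K}
    (hg : g.IsHomogeneous (D - 1)) :
    ∑ p' : resc Z c1, wt Z c1 D φ p' * ev (resc Z c1) g p' = ∑ p ∈ Z, φ p * eval p g := by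
  have e1 : ∀ p' : resc Z c1, wt Z c1 D φ p' * ev (resc Z c1) g p' =
      (fun q : Fin (n + 1) → K => wt Z c1 D φ q * eval q g) p' := by
    intro p'
    rw [ev_apply]
  rw [Finset.sum_congr rfl (fun p' _ => e1 p'), Finset.sum_coe_sort (resc Z c1)
    (fun q : Fin (n + 1) → K => wt Z c1 D φ q * eval q g)]
  simp only [wt, Finset.sum_mul]
  rw [Finset.sum_comm]
  apply Finset.sum_congr rfl
  intro p hp
  rw [Finset.sum_eq_single (scl c1 p • p)]
  · rw [Set.indicator_of_mem (s := {q | scl c1 q • q = scl c1 p • p}) rfl,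
      C1_eval_smul (D - 1) g hg]
    have := scl_ne h p hp
    field_simp
  · intro q _ hq
    rw [Set.indicator_of_notMem, zero_mul]
    intro h1
    exact hq (Eq.symm h1)
  · intro h1
    exact absurd (mem_resc.2 ⟨p, hp, rfl⟩) h1

end Pool.Agent.TH274.PT
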