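import Pool.Agent.TH274.PT.Norm
import Pool.Agent.TH274.PT.Resc

/-!
# Sign conditions for Gorenstein point sets: main theorem
-/

open MvPolynomial Finset Module

namespace Pool.Agent.TH274.PT

open Pool.Agent.W515.SLP Pool.Agent.H500R2.WLP Pool.Agent.TH274.MA

/-- The ideal of the Artinian reduction by the linear form `∑ c_i x_i`. -/
noncomputable def red {K : Type*} [Field K] {n : ℕ} (Z : Finset (Fin (n + 1) → K))
    (c : Fin (n + 1) → K) : Ideal (MvPolynomial (Fin (n + 1)) K) :=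
  IZ Z ⊔ Ideal.span {H500R2.WLP.lin c}

/-- The point set is arithmetically Gorenstein: some Artinian reduction by a linear form that
vanishes at no point of `Z` has a one-dimensional socle. -/
def GorPts {K : Type*} [Field K] {n : ℕ} (Z : Finset (Fin (n + 1) → K)) : Prop :=
  ∃ c : Fin (n + 1) → K, (∀ p ∈ Z, eval p (H500R2.WLP.lin c) ≠ 0) ∧
    ∃ s : MvPolynomial (Fin (n + 1)) K, s ∉ red Z c ∧ (∀ i, X i * s ∈ red Z c) ∧
      ∀ f : MvPolynomial (Fin (n + 1)) K, (∀ i, X i * f ∈ red Z c) →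
        ∃ a : K, f - C a * s ∈ red Z c

/-- The weak Lefschetz property of `R / J`. -/
def WLP {K : Type*} [Field K] {n : ℕ} (J : Ideal (MvPolynomial (Fin (n + 1)) K)) : Prop :=
  ∃ L : MvPolynomial (Fin (n + 1)) K, L.IsHomogeneous 1 ∧ ∀ d : ℕ,
    (∀ f : MvPolynomial (Fin (n + 1)) K, f.IsHomogeneous d → L * f ∈ J → f ∈ J) ∨
    (∀ g : MvPolynomial (Fin (n + 1)) K, g.IsHomogeneous (d + 1) →
      ∃ f : MvPolynomial (Fin (n + 1)) K, f.IsHomogeneous d ∧ g - L * f ∈ J)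

/-- The strong Lefschetz property of `R / J` with socle degree `D`: all forms of degree `> D` are
in `J` and for one linear form `L` the maps `L ^ (D - 2 i)` from degree `i` to degree `D - i` are
injective and surjective for all `i ≤ D / 2`. -/
def SLP {K : Type*} [Field K] {n : ℕ} (J : Ideal (MvPolynomial (Fin (n + 1)) K)) (D : ℕ) :
    Prop :=
  (∀ j, D < j → ∀ g : MvPolynomial (Fin (n + 1)) K, g.IsHomogeneous j → g ∈ J) ∧
  ∃ L : MvPolynomial (Fin (n + 1)) K, L.IsHomogeneous 1 ∧ ∀ i : ℕ, 2 * i ≤ D →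
    (∀ f : MvPolynomial (Fin (n + 1)) K, f.IsHomogeneous i → L ^ (D - 2 * i) * f ∈ J → f ∈ J) ∧
    (∀ g : MvPolynomial (Fin (n + 1)) K, g.IsHomogeneous (D - i) →
      ∃ f : MvPolynomial (Fin (n + 1)) K, f.IsHomogeneous i ∧ g - L ^ (D - 2 * i) * f ∈ J)

section

variable {K : Type*} [Field K] {n : ℕ} {Z : Finset (Fin (n + 1) → K)}

lemma resc_ev {c1 : Fin (n + 1) → K} (h : ∀ p ∈ Z, eval p (H500R2.WLP.lin c1) ≠ 0)
    {c : Fin (n + 1) → K} (hc : ∀ p ∈ Z, eval p (H500R2.WLP.lin c) ≠ 0) :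
    ∀ p, ev (resc Z c1) (H500R2.WLP.lin c) p ≠ 0 := by
  intro p'
  obtain ⟨p, hp, hpp⟩ := mem_resc.1 p'.2
  rw [ev_apply, ← hpp, eval_lin_smul]
  exact mul_ne_zero (scl_ne h p hp) (hc p hp)

/-- The normalised point set with its duality. -/
theorem exists_dual {D : ℕ} (hD : 1 ≤ D) (hI : Interp Z D) {c1 : Fin (n + 1) → K}
    (h : ∀ p ∈ Z, eval p (H500R2.WLP.lin c1) ≠ 0) (s : MvPolynomial (Fin (n + 1)) K)
    (hs1 : s ∉ red Z c1) (hs2 : ∀ i, X i * s ∈ red Z c1)
    (hs3 : ∀ f : MvPolynomial (Fin (n + 1)) K, (∀ i, X i * f ∈ red Z c1) →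
        ∃ a : K, f - C a * s ∈ red Z c1)
    (φ : (Fin (n + 1) → K) → K) (hφ : ∃ p ∈ Z, φ p ≠ 0)
    (hrel : ∀ g : MvPolynomial (Fin (n + 1)) K, g.IsHomogeneous (D - 1) →
      ∑ p ∈ Z, φ p * eval p g = 0) :
    Dual (resc Z c1) D (fun p => wt Z c1 D φ p) := by
  have hIZ : ∀ c, red Z c = IZ (resc Z c1) ⊔ Ideal.span {H500R2.WLP.lin c} := by
    intro c
    rw [IZ_resc h]
    rfl
  simp only [hIZ] at hs1 hs2 hs3
  refine dual_of_rel (resc Z c1) c1 (resc_one h) s hs1 hs2 hs3 hD (top_resc h hI) _ ?_ ?_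
  · obtain ⟨p, hp, hp2⟩ := hφ
    intro h0
    have h1 := congrFun h0 ⟨scl c1 p • p, mem_resc.2 ⟨p, hp, rfl⟩⟩
    rw [wt_eq h hI φ hp] at h1
    exact div_ne_zero hp2 (pow_ne_zero _ (scl_ne h p hp)) h1
  · intro g hg
    obtain ⟨g', hg', rfl⟩ := (mem_Rd _ _ _).1 hg
    rw [sum_wt h φ hg']
    exact hrel g' hg'

end

variable {K : Type*} [Field K] [LinearOrder K] [IsStrictOrderedRing K] {n : ℕ}
  {Z : Finset (Fin (n + 1) → K)}

lemma card_resc {D : ℕ} (hD : 2 ≤ D) (hI : Interp Z D) {c1 : Fin (n + 1) → K}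
    (h : ∀ p ∈ Z, eval p (H500R2.WLP.lin c1) ≠ 0) (φ : (Fin (n + 1) → K) → K)
    (c0 a : Fin (n + 1) → K) :
    (univ.filter (fun p : resc Z c1 => wt Z c1 D φ p * ev (resc Z c1) (H500R2.WLP.lin c0) p *
      ev (resc Z c1) (H500R2.WLP.lin a) p ^ (D % 2) < 0)).card ≤
    (Z.filter (fun p => φ p * eval p (H500R2.WLP.lin c0) *
      eval p (H500R2.WLP.lin a) ^ (D % 2) < 0)).card := by
  classical
  have hsub : (univ.filter (fun p : resc Z c1 => wt Z c1 D φ p *
      ev (resc Z c1) (H500R2.WLP.lin c0) p *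
      ev (resc Z c1) (H500R2.WLP.lin a) p ^ (D % 2) < 0)).image Subtype.val ⊆
      (Z.filter (fun p => φ p * eval p (H500R2.WLP.lin c0) *
      eval p (H500R2.WLP.lin a) ^ (D % 2) < 0)).image (fun p => scl c1 p • p) := by
    intro q hq
    obtain ⟨p', hp', rfl⟩ := Finset.mem_image.1 hq
    obtain ⟨p, hp, hpp⟩ := mem_resc.1 p'.2
    rw [Finset.mem_image]
    refine ⟨p, Finset.mem_filter.2 ⟨hp, ?_⟩, hpp⟩
    have h1 := (Finset.mem_filter.1 hp').2
    rw [ev_apply, ev_apply, ← hpp, wt_eq h hI φ hp, eval_lin_smul, eval_lin_smul] at h1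
    have hs := scl_ne h p hp
    set t := scl c1 p
    set u := eval p (H500R2.WLP.lin c0)
    set v := eval p (H500R2.WLP.lin a)
    have e1 : φ p * u * v ^ (D % 2) = (φ p / t ^ (D - 1) * (t * u) * (t * v) ^ (D % 2)) *
        (t ^ (D / 2 - 1)) ^ 2 := by
      have e2 : t ^ (D - 1) * t ^ 1 = t ^ (D % 2) * (t ^ (D / 2 - 1)) ^ 2 * t ^ 2 := by
        rw [← pow_mul, ← pow_add, ← pow_add, ← pow_add]
        congr 1
        omega
      have e3 : t ^ (D - 1) = t ^ (D % 2) * (t ^ (D / 2 - 1)) ^ 2 * t := by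
        apply mul_right_cancel₀ hs
        rw [pow_one] at e2
        rw [e2]
        ring
      rw [mul_pow]
      field_simp
      rw [e3]
      ring
    rw [e1]
    exact mul_neg_of_neg_of_pos h1 (by positivity)
  have h2 := Finset.card_le_card hsub
  rw [Finset.card_image_of_injective _ Subtype.val_injective] at h2
  exact h2.trans Finset.card_image_le

/-- **Main theorem, sign conditions.** -/
theorem main_sign {D : ℕ} (hD : 2 ≤ D) (hG : GorPts Z) (hI : Interp Z D)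
    (φ : (Fin (n + 1) → K) → K) (hφ : ∃ p ∈ Z, φ p ≠ 0)
    (hrel : ∀ g : MvPolynomial (Fin (n + 1)) K, g.IsHomogeneous (D - 1) →
      ∑ p ∈ Z, φ p * eval p g = 0)
    (c0 a : Fin (n + 1) → K) (hc0 : ∀ p ∈ Z, eval p (H500R2.WLP.lin c0) ≠ 0)
    (ha : ∀ p ∈ Z, eval p (H500R2.WLP.lin a) ≠ 0)
    (hcard : (Z.filter (fun p => φ p * eval p (H500R2.WLP.lin c0) *
      eval p (H500R2.WLP.lin a) ^ (D % 2) < 0)).card ≤ finrank K (Rd Z (D / 2 - 1))) :
    (∀ c : Fin (n + 1) → K, (∀ p ∈ Z, 0 < eval p (H500R2.WLP.lin c) *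
      eval p (H500R2.WLP.lin c0)) → SLP (red Z c) D) ∧
    ∃ F : MvPolynomial (Fin (n + 1)) K, F ≠ 0 ∧ ∀ c : Fin (n + 1) → K, eval c F ≠ 0 →
      WLP (red Z c) := by
  obtain ⟨c1, h, s, hs1, hs2, hs3⟩ := hG
  have hIZ : ∀ c, red Z c = IZ (resc Z c1) ⊔ Ideal.span {H500R2.WLP.lin c} := by
    intro c
    rw [IZ_resc h]
    rfl
  have hdual := exists_dual (by omega) hI h s hs1 hs2 hs3 φ hφ hrel
  have hcard' := (card_resc hD hI h φ c0 a).trans hcard
  rw [← finrank_resc h] at hcard'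
  have hch := slp_chamber hdual hD c0 a (resc_ev h ha) hcard'
  constructor
  · intro c hc
    have hc' : ∀ p, 0 < ev (resc Z c1) (H500R2.WLP.lin c) p *
        ev (resc Z c1) (H500R2.WLP.lin c0) p := by
      intro p'
      obtain ⟨p, hp, hpp⟩ := mem_resc.1 p'.2
      rw [ev_apply, ev_apply, ← hpp, eval_lin_smul, eval_lin_smul]
      have hs := scl_ne h p hp
      have e1 : scl c1 p * eval p (H500R2.WLP.lin c) * (scl c1 p * eval p (H500R2.WLP.lin c0)) =
          (eval p (H500R2.WLP.lin c) * eval p (H500R2.WLP.lin c0)) * scl c1 p ^ 2 := by ring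
      rw [e1]
      exact mul_pos (hc p hp) (by positivity)
    have hx : ∀ p, ev (resc Z c1) (H500R2.WLP.lin c) p ≠ 0 :=
      fun p => left_ne_zero_of_mul (hc' p).ne'
    obtain ⟨b, hb⟩ := hch c hc'
    rw [hIZ]
    refine ⟨?_, H500R2.WLP.lin b, lin_isHomogeneous b, fun i hi => ?_⟩
    · intro j hj g hg
      rw [link hdual hx hg]
      exact annP_of_gt deg_phiC hj hg
    · exact slp_ideal hdual hx hi (hb i (by omega))
  · have hZ' : ∀ p ∈ resc Z c1, p ≠ 0 := by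
      intro p hp h0
      have h1 := resc_one h p hp
      rw [h0, H500R2.WLP.eval_lin] at h1
      simp at h1
    by_cases hD3 : 3 ≤ D
    · have hx0 := resc_ev h hc0
      obtain ⟨b, hb⟩ := hch c0 (fun p => mul_self_pos.2 (hx0 p))
      have hinj : Inj (phiC (resc Z c1) D (fun p => wt Z c1 D φ p) c0) (W515.SLP.lin b)
          ((D - 1) / 2) := by
        intro f hf h1
        exact inj_of_PCond (k := 1) (D := D) (by omega) (hb ((D - 1) / 2) (by omega)) hf
          (by rw [pow_one]; exact h1)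
      obtain ⟨F, hF, hF'⟩ := general_of_one hdual hZ' c0 b hx0 hD3 hinj
      refine ⟨F, hF, fun c hc => ⟨H500R2.WLP.lin b, lin_isHomogeneous b, fun d => ?_⟩⟩
      rw [hIZ]
      exact hF' c hc d
    · -- socle degree two: the result for small degrees
      simp only [hIZ] at hs1 hs2 hs3
      obtain ⟨F, hF, hF'⟩ := main_norm (resc Z c1) c1 (resc_one h) s hs1 hs2 hs3
      refine ⟨F * ∏ p ∈ resc Z c1, H500R2.WLP.lin p, mul_ne_zero hF
        (Finset.prod_ne_zero_iff.2 fun p hp => W515.SLP.lin_ne_zero p (hZ' p hp)), ?_⟩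
      intro c hc
      rw [map_mul, map_prod] at hc
      have hx : ∀ p : resc Z c1, ev (resc Z c1) (H500R2.WLP.lin c) p ≠ 0 := by
        intro p
        rw [ev_apply, ← eval_lin_comm]
        exact (Finset.prod_ne_zero_iff.1 (right_ne_zero_of_mul hc)) p.1 p.2
      obtain ⟨L, hL, hL'⟩ := hF' c (left_ne_zero_of_mul hc)
      refine ⟨L, hL, fun d => ?_⟩
      rw [hIZ]
      apply hL'
      right
      intro g hg
      rw [link hdual hx hg]
      exact annP_of_gt deg_phiC (by omega) hg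

end Pool.Agent.TH274.PT
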