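import Pool.Agent.TH274.PT.Link
import Pool.Agent.TH274.PT.Wlp
import Pool.Agent.TH274.MA.Sgn

/-!
# Sign conditions on the Cayley–Bacharach weights
-/

open MvPolynomial Finset Module

namespace Pool.Agent.TH274.PT

open Pool.Agent.W515.SLP Pool.Agent.H500R2.WLP Pool.Agent.TH274.MA

variable {K : Type*} [Field K] [LinearOrder K] [IsStrictOrderedRing K]

/-- Isotropic vectors of a diagonal form restricted to a subspace, when the radical is large. -/
lemma mem_of_isotropic' {ι : Type*} [Fintype ι] {V : Type*} [AddCommGroup V] [Module K V]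
    [Module.Finite K V]
    (ev : V →ₗ[K] (ι → K)) (A : Submodule K V) (ω : ι → K) (hω : ∀ j, ω j ≠ 0)
    (hker : LinearMap.ker ev ≤ A) (hA : ∀ x ∈ A, ∀ y, ∑ j, ω j * (ev x j * ev y j) = 0)
    (hcard : (univ.filter (fun j => ω j < 0)).card ≤ finrank K (A.map ev)) (g : V)
    (hg : ∑ j, ω j * (ev g j * ev g j) = 0) : g ∈ A := by
  classical
  let e := Fintype.equivFin ι
  let R : (ι → K) ≃ₗ[K] (Fin (Fintype.card ι) → K) := LinearEquiv.funCongrLeft K K e.symm
  have hR : ∀ (v : ι → K) j, R v j = v (e.symm j) := fun v j => rfl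
  apply mem_of_isotropic (R.toLinearMap.comp ev) A (fun j => ω (e.symm j))
    (fun j => hω _)
  · rw [LinearMap.ker_comp, LinearEquiv.ker, Submodule.comap_bot]
    exact hker
  · intro x hx y
    rw [← hA x hx y]
    exact Equiv.sum_comp e.symm (fun j => ω j * (ev x j * ev y j))
  · rw [Submodule.map_comp, LinearEquiv.finrank_map_eq]
    refine le_trans (le_of_eq ?_) hcard
    apply Finset.card_bij (fun j _ => e.symm j)
    · intro j hj
      rw [Finset.mem_filter] at hj ⊢
      exact ⟨Finset.mem_univ _, hj.2⟩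
    · intro a _ b _ hab
      exact e.symm.injective hab
    · intro b hb
      rw [Finset.mem_filter] at hb
      exact ⟨e b, by simpa using hb.2, by simp⟩
  · rw [← hg]
    exact Equiv.sum_comp e.symm (fun j => ω j * (ev g j * ev g j))

variable {n : ℕ} {Z : Finset (Fin (n + 1) → K)} {D : ℕ} {φ : Z → K}

/-- Few negative signs give anisotropy. -/
theorem aniso_points (h : Dual Z D φ) {m : ℕ} (hm : 1 ≤ m) (hmD : 2 * m ≤ D)
    (c a : Fin (n + 1) → K) (hc : ∀ p, ev Z (H500R2.WLP.lin c) p ≠ 0)
    (ha : ∀ p, ev Z (H500R2.WLP.lin a) p ≠ 0)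
    (hcard : (univ.filter (fun p : Z => φ p * ev Z (H500R2.WLP.lin c) p *
      ev Z (H500R2.WLP.lin a) p ^ (D - 2 * m) < 0)).card ≤ finrank K (Rd Z (m - 1))) :
    Aniso (phiC Z D φ c) D m (W515.SLP.lin a) := by
  classical
  have hfin : Module.Finite K (homogeneousSubmodule (Fin (n + 1)) K m) :=
    Module.Finite.iff_fg.2 (homogeneousSubmodule_fg _ _ m)
  set l := ev Z (H500R2.WLP.lin a) with hl
  set x := ev Z (H500R2.WLP.lin c) with hxdef
  set ω : Z → K := fun p => φ p / x p * l p ^ (D - 2 * m) with hω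
  have hω0 : ∀ p, ω p ≠ 0 := fun p => mul_ne_zero (div_ne_zero (h.ne p) (hc p))
    (pow_ne_zero _ (ha p))
  have hform : ∀ g u : MvPolynomial (Fin (n + 1)) K, g.IsHomogeneous m → u.IsHomogeneous m →
      phiC Z D φ c (g * u * W515.SLP.lin a ^ (D - 2 * m)) =
        ∑ p, ω p * (ev Z g p * ev Z u p) := by
    intro g u hg hu
    have h2 : (g * u * W515.SLP.lin a ^ (D - 2 * m)).IsHomogeneous D := by
      have := (hg.mul hu).mul ((lin_hom a).pow (D - 2 * m))
      have h3 : m + m + 1 * (D - 2 * m) = D := by omega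
      rwa [h3] at this
    rw [phiC_hom h2]
    apply Finset.sum_congr rfl
    intro p _
    rw [map_mul, map_mul, map_pow]
    change φ p / x p * (ev Z g p * ev Z u p * l p ^ (D - 2 * m)) = _
    rw [hω]
    ring
  let E : homogeneousSubmodule (Fin (n + 1)) K m →ₗ[K] (Z → K) :=
    (ev Z).toLinearMap.comp (Submodule.subtype _)
  let A : Submodule K (homogeneousSubmodule (Fin (n + 1)) K m) :=
    { carrier := {g | AnnP (phiC Z D φ c) (g : MvPolynomial (Fin (n + 1)) K)}
      zero_mem' := annP_zero
      add_mem' := fun ha hb => AnnP.add ha hb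
      smul_mem' := by
        intro r g hg
        change AnnP _ (r • (g : MvPolynomial (Fin (n + 1)) K))
        rw [smul_eq_C_mul]
        exact AnnP.mul_left hg _ }
  intro g hg h0
  have key := mem_of_isotropic' E A ω hω0 (by
      intro u hu
      change AnnP _ (u : MvPolynomial (Fin (n + 1)) K)
      rw [← link h hc u.2]
      exact Submodule.mem_sup_left ((mem_IZ Z m _ u.2).2 (LinearMap.mem_ker.1 hu))) (by
      intro u hu v
      have h1 := hform u v u.2 v.2
      rw [mul_assoc, show phiC Z D φ c _ = 0 from hu _] at h1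
      exact h1.symm) (by
      have e1 : univ.filter (fun p : Z => ω p < 0) = univ.filter (fun p : Z =>
          φ p * x p * l p ^ (D - 2 * m) < 0) := by
        apply Finset.filter_congr
        intro p _
        have h1 : ω p = (φ p * x p * l p ^ (D - 2 * m)) * (x p ^ 2)⁻¹ := by
          have := hc p
          rw [hω]
          field_simp
        rw [h1, mul_neg_iff]
        have h2 : 0 < (x p ^ 2)⁻¹ := by have := hc p; positivity
        constructor
        · rintro (⟨_, h3⟩ | ⟨h3, _⟩)
          · exact absurd h3 (not_lt.2 h2.le)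
          · exact h3
        · intro h3
          exact Or.inr ⟨h3, h2⟩
      rw [e1]
      refine hcard.trans ?_
      have h3 : finrank K ((Rd Z (m - 1)).map (LinearMap.mulRight K x)) =
          finrank K (Rd Z (m - 1)) := by
        refine LinearEquiv.finrank_eq (Submodule.equivMapOfInjective _ ?_ _).symm
        intro u v huv
        funext p
        exact mul_right_cancel₀ (hc p) (congrFun huv p)
      rw [← h3]
      apply Submodule.finrank_mono
      rintro _ ⟨u, hu, rfl⟩
      obtain ⟨g', hg', rfl⟩ := (mem_Rd Z _ _).1 hu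
      have h4 : (g' * H500R2.WLP.lin c).IsHomogeneous m := by
        have := hg'.mul (lin_isHomogeneous c)
        rwa [Nat.sub_add_cancel hm] at this
      refine ⟨⟨g' * H500R2.WLP.lin c, h4⟩, ?_, ?_⟩
      · change AnnP _ (g' * H500R2.WLP.lin c)
        rw [← link h hc h4]
        exact Submodule.mem_sup_right (Ideal.mul_mem_left _ _
          (Ideal.mem_span_singleton_self _))
      · change ev Z (g' * H500R2.WLP.lin c) = ev Z g' * x
        rw [map_mul]) ⟨g, hg⟩ (by
      have h1 := hform g g hg hg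
      have e2 : g * g * W515.SLP.lin a ^ (D - 2 * m) = g ^ 2 * W515.SLP.lin a ^ (D - 2 * m) := by
        ring
      rw [e2, h0] at h1
      exact h1.symm)
  exact key

/-- The strong Lefschetz condition for all cuts with the right signs. -/
theorem pcond_points (h : Dual Z D φ) {m : ℕ} (hm : 1 ≤ m) (hmD : 2 * m ≤ D)
    (c a : Fin (n + 1) → K) (hc : ∀ p, ev Z (H500R2.WLP.lin c) p ≠ 0)
    (ha : ∀ p, ev Z (H500R2.WLP.lin a) p ≠ 0)
    (hcard : (univ.filter (fun p : Z => φ p * ev Z (H500R2.WLP.lin c) p *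
      ev Z (H500R2.WLP.lin a) p ^ (D - 2 * m) < 0)).card ≤ finrank K (Rd Z (m - 1))) :
    ∃ b : Fin (n + 1) → K, ∀ i ≤ m, PCond (phiC Z D φ c) D i (W515.SLP.lin b) := by
  classical
  let e := Fintype.equivFin Z
  let P : Fin (Fintype.card Z) → Fin (n + 1) → K := fun j => (e.symm j).1
  have hev : ∀ (b : Fin (n + 1) → K) (p : Z), ev Z (H500R2.WLP.lin b) p =
      eval b (W515.SLP.lin (p : Fin (n + 1) → K)) := by
    intro b p
    rw [ev_apply, ← eval_lin_comm]
    rfl
  obtain ⟨b, -, hb⟩ := exists_pcond (φ := phiC Z D φ c) (D := D) deg_phiC hmD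
    {b | ∀ p : Z, 0 < ev Z (H500R2.WLP.lin b) p * ev Z (H500R2.WLP.lin a) p} (by
      intro Q hQ
      obtain ⟨b, hb, hbQ⟩ := dense_signs P a (fun j => by rw [← hev]; exact ha _) Q hQ
      refine ⟨b, fun p => ?_, hbQ⟩
      have h1 := hb (e p)
      simp only [P, Equiv.symm_apply_apply] at h1
      rw [hev, hev]
      exact h1) (by
      intro b hb
      have hb' : ∀ p : Z, 0 < ev Z (H500R2.WLP.lin b) p * ev Z (H500R2.WLP.lin a) p := hb
      refine aniso_points h hm hmD c b hc (fun p => left_ne_zero_of_mul (hb' p).ne') ?_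
      refine le_trans (le_of_eq ?_) hcard
      refine congrArg Finset.card (Finset.filter_congr fun p _ => ?_)
      have h1 : 0 < ev Z (H500R2.WLP.lin b) p ^ (D - 2 * m) *
          ev Z (H500R2.WLP.lin a) p ^ (D - 2 * m) := by
        rw [← mul_pow]
        exact pow_pos (hb' p) _
      have h2 : ∀ u v w : K, 0 < v * w → u * v < 0 → u * w < 0 := by
        intro u v w hvw huv
        rcases mul_neg_iff.1 huv with ⟨h3, h4⟩ | ⟨h3, h4⟩
        · exact mul_neg_iff.2 (Or.inl ⟨h3, by
            by_contra h5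
            exact absurd hvw (not_lt.2 (mul_nonpos_of_nonpos_of_nonneg h4.le (not_lt.1 h5)))⟩)
        · exact mul_neg_iff.2 (Or.inr ⟨h3, by
            by_contra h5
            exact absurd hvw (not_lt.2 (mul_nonpos_of_nonneg_of_nonpos h4.le (not_lt.1 h5)))⟩)
      exact ⟨h2 _ _ _ h1, h2 _ _ _ (by rw [mul_comm]; exact h1)⟩)
  exact ⟨b, hb⟩

end Pool.Agent.TH274.PT
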