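import Pool.Agent.TH274.PT.Open
import Pool.Agent.TH274.PT.Sign

/-!
# General Artinian reductions of normalised point sets
-/

open MvPolynomial Finset Module

namespace Pool.Agent.TH274.PT

open Pool.Agent.W515.SLP Pool.Agent.H500R2.WLP Pool.Agent.TH274.MA

section

variable {K : Type*} [Field K] {n : ℕ}

/-- The duality data from the Gorenstein hypothesis and a Cayley–Bacharach relation. -/
theorem dual_of_rel (Z : Finset (Fin (n + 1) → K))
    (c0 : Fin (n + 1) → K) (h0 : ∀ p ∈ Z, eval p (H500R2.WLP.lin c0) = 1)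
    (sp : MvPolynomial (Fin (n + 1)) K)
    (hs1 : sp ∉ IZ Z ⊔ Ideal.span {H500R2.WLP.lin c0})
    (hs2 : ∀ i, X i * sp ∈ IZ Z ⊔ Ideal.span {H500R2.WLP.lin c0})
    (hs3 : ∀ f : MvPolynomial (Fin (n + 1)) K,
      (∀ i, X i * f ∈ IZ Z ⊔ Ideal.span {H500R2.WLP.lin c0}) →
        ∃ a : K, f - C a * sp ∈ IZ Z ⊔ Ideal.span {H500R2.WLP.lin c0})
    {D : ℕ} (hD : 1 ≤ D) (htop : Rd Z D = ⊤) (φ : Z → K) (hφ : φ ≠ 0)
    (hrel : ∀ g ∈ Rd Z (D - 1), ∑ p, φ p * g p = 0) : Dual Z D φ := by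
  classical
  obtain ⟨hR0, hR1, hmul, -, -, -⟩ := Rd_props Z c0 h0
  obtain ⟨s, htop', hne, hcod, hsoc⟩ := TD.gor_data Z c0 h0 sp hs1 hs2 hs3
  have hmono : ∀ {a b : ℕ}, a ≤ b → Rd Z a ≤ Rd Z b := fun hab => R_mono (Rd Z) hR1 hmul hab
  have hDne : Rd Z (D - 1) ≠ ⊤ := by
    intro h
    apply hφ
    funext p
    have h1 := hrel (Pi.single p 1) (by rw [h]; exact Submodule.mem_top)
    rw [Finset.sum_eq_single p] at h1
    · rwa [Pi.single_eq_same, mul_one] at h1
    · intro q _ hq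
      rw [Pi.single_eq_of_ne hq, mul_zero]
    · intro h2
      exact absurd (Finset.mem_univ _) h2
  have hs : s = D := by
    apply le_antisymm
    · by_contra hcon
      apply hne (by omega)
      rw [eq_top_iff, ← htop]
      exact hmono (by omega)
    · by_contra hcon
      apply hDne
      rw [eq_top_iff, ← htop']
      exact hmono (by omega)
  subst hs
  obtain ⟨f1, hf1, hf1'⟩ := hcod hD
  obtain ⟨ψ, hψ, hdual⟩ := duality (Rd Z) hR0 hR1 hmul s hD htop' f1 hf1 hf1' hsoc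
  have h1 : (fun p => φ p / ψ p) ∈ Rd Z 0 := by
    have h2 := hdual (s - 1) (by omega) (fun p => φ p / ψ p)
    rw [Nat.sub_self] at h2
    rw [← h2]
    intro g hg
    rw [← hrel g hg]
    apply Finset.sum_congr rfl
    intro p _
    have := hψ p
    field_simp
  rw [hR0, Submodule.mem_span_singleton] at h1
  obtain ⟨a, ha⟩ := h1
  have h2 : ∀ p, φ p = a * ψ p := by
    intro p
    have h3 := congrFun ha p
    simp only [Pi.smul_apply, Pi.one_apply, smul_eq_mul, mul_one] at h3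
    rw [h3, div_mul_cancel₀ _ (hψ p)]
  have ha0 : a ≠ 0 := by
    rintro rfl
    apply hφ
    funext p
    rw [h2, zero_mul, Pi.zero_apply]
  refine ⟨hD, hR1, htop, fun p => by rw [h2]; exact mul_ne_zero ha0 (hψ p), ?_⟩
  intro j hj f
  rw [← hdual j hj f]
  have h3 : ∀ g : Z → K, ∑ p, φ p * f p * g p = a * ∑ p, ψ p * f p * g p := by
    intro g
    rw [Finset.mul_sum]
    apply Finset.sum_congr rfl
    intro p _
    rw [h2]
    ring
  constructor
  · intro h4 g hg
    have h5 := h4 g hg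
    rw [h3] at h5
    exact (mul_eq_zero.1 h5).resolve_left ha0
  · intro h4 g hg
    rw [h3, h4 g hg, mul_zero]

variable {Z : Finset (Fin (n + 1) → K)} {D : ℕ} {φ : Z → K}

/-- Injectivity for the functional and for the ideal. -/
lemma inj_iff (h : Dual Z D φ) {c : Fin (n + 1) → K}
    (hx : ∀ p, ev Z (H500R2.WLP.lin c) p ≠ 0) (b : Fin (n + 1) → K) (i : ℕ) :
    Inj (phiC Z D φ c) (W515.SLP.lin b) i ↔
      ∀ f : MvPolynomial (Fin (n + 1)) K, f.IsHomogeneous i →
        H500R2.WLP.lin b * f ∈ IZ Z ⊔ Ideal.span {H500R2.WLP.lin c} →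
          f ∈ IZ Z ⊔ Ideal.span {H500R2.WLP.lin c} := by
  constructor
  · intro h1 f hf h2
    rw [link h hx hf]
    exact h1 f hf ((link h hx ((lin_isHomogeneous b).mul hf)).1 h2)
  · intro h1 f hf h2
    rw [← link h hx hf]
    exact h1 f hf ((link h hx ((lin_isHomogeneous b).mul hf)).2 h2)

/-- The weak Lefschetz property of the ideal from the injectivity in the middle. -/
theorem wlp_ideal (h : Dual Z D φ) {c : Fin (n + 1) → K}
    (hx : ∀ p, ev Z (H500R2.WLP.lin c) p ≠ 0) {b : Fin (n + 1) → K}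
    (hinj : Inj (phiC Z D φ c) (W515.SLP.lin b) ((D - 1) / 2)) (d : ℕ) :
    (∀ f : MvPolynomial (Fin (n + 1)) K, f.IsHomogeneous d →
        H500R2.WLP.lin b * f ∈ IZ Z ⊔ Ideal.span {H500R2.WLP.lin c} →
          f ∈ IZ Z ⊔ Ideal.span {H500R2.WLP.lin c}) ∨
      (∀ g : MvPolynomial (Fin (n + 1)) K, g.IsHomogeneous (d + 1) →
        ∃ f : MvPolynomial (Fin (n + 1)) K, f.IsHomogeneous d ∧
          g - H500R2.WLP.lin b * f ∈ IZ Z ⊔ Ideal.span {H500R2.WLP.lin c}) := by
  rcases wlp_of_inj deg_phiC h.pos (lin_hom b) hinj d with h1 | h1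
  · left
    exact (inj_iff h hx b d).1 h1
  · right
    intro g hg
    obtain ⟨f, hf, hf2⟩ := h1 g hg
    refine ⟨f, hf, ?_⟩
    have h2 : (g - H500R2.WLP.lin b * f).IsHomogeneous (d + 1) := by
      have := (lin_isHomogeneous b).mul hf
      rw [Nat.add_comm 1] at this
      exact hg.sub this
    rw [link h hx h2]
    exact hf2

end

section

variable {K : Type*} [Field K] {n : ℕ}

/-- General Artinian reductions have the weak Lefschetz property if one reduction has an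
injective multiplication in the middle. -/
theorem general_of_one [Infinite K] {Z : Finset (Fin (n + 1) → K)} {D : ℕ} {φ : Z → K}
    (h : Dual Z D φ) (hZ : ∀ p ∈ Z, p ≠ 0)
    (c0 b : Fin (n + 1) → K) (hx0 : ∀ p, ev Z (H500R2.WLP.lin c0) p ≠ 0) (hD : 3 ≤ D)
    (hinj : Inj (phiC Z D φ c0) (W515.SLP.lin b) ((D - 1) / 2)) :
    ∃ F : MvPolynomial (Fin (n + 1)) K, F ≠ 0 ∧ ∀ c : Fin (n + 1) → K, eval c F ≠ 0 → ∀ d : ℕ,
      (∀ f : MvPolynomial (Fin (n + 1)) K, f.IsHomogeneous d →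
        H500R2.WLP.lin b * f ∈ IZ Z ⊔ Ideal.span {H500R2.WLP.lin c} →
          f ∈ IZ Z ⊔ Ideal.span {H500R2.WLP.lin c}) ∨
      (∀ g : MvPolynomial (Fin (n + 1)) K, g.IsHomogeneous (d + 1) →
        ∃ f : MvPolynomial (Fin (n + 1)) K, f.IsHomogeneous d ∧
          g - H500R2.WLP.lin b * f ∈ IZ Z ⊔ Ideal.span {H500R2.WLP.lin c}) := by
  have hi : 1 ≤ (D - 1) / 2 := by omega
  obtain ⟨F, hF, hF'⟩ := opn Z hZ hi b c0 hx0
    ((good_iff Z hi b c0).2 ((inj_iff h hx0 b _).1 hinj))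
  refine ⟨F, hF, fun c hc d => ?_⟩
  obtain ⟨hx, hg⟩ := hF' c hc
  exact wlp_ideal h hx ((inj_iff h hx b _).2 ((good_iff Z hi b c).1 hg)) d

end

section

variable {K : Type*} [Field K] [LinearOrder K] [IsStrictOrderedRing K] {n : ℕ}
  {Z : Finset (Fin (n + 1) → K)} {D : ℕ} {φ : Z → K}

/-- The strong Lefschetz property for the cuts with the right signs. -/
theorem slp_chamber (h : Dual Z D φ) (hD : 2 ≤ D) (c0 a : Fin (n + 1) → K)
    (ha : ∀ p, ev Z (H500R2.WLP.lin a) p ≠ 0)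
    (hcard : (univ.filter (fun p : Z => φ p * ev Z (H500R2.WLP.lin c0) p *
      ev Z (H500R2.WLP.lin a) p ^ (D % 2) < 0)).card ≤ finrank K (Rd Z (D / 2 - 1)))
    (c : Fin (n + 1) → K)
    (hc : ∀ p, 0 < ev Z (H500R2.WLP.lin c) p * ev Z (H500R2.WLP.lin c0) p) :
    ∃ b : Fin (n + 1) → K, ∀ i ≤ D / 2, PCond (phiC Z D φ c) D i (W515.SLP.lin b) := by
  have e1 : D - 2 * (D / 2) = D % 2 := by omega
  apply pcond_points h (by omega) (by omega) c a (fun p => left_ne_zero_of_mul (hc p).ne') ha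
  refine le_trans (le_of_eq ?_) hcard
  refine congrArg Finset.card (Finset.filter_congr fun p _ => ?_)
  rw [e1]
  have h2 : ∀ u v w z : K, 0 < v * w → u * v * z < 0 → u * w * z < 0 := by
    intro u v w z hvw huv
    have h3 : 0 < v * v := mul_self_pos.2 (left_ne_zero_of_mul hvw.ne')
    have h4 : (u * w * z) * (v * v) = (u * v * z) * (v * w) := by ring
    by_contra h5
    have h6 : 0 ≤ (u * w * z) * (v * v) := mul_nonneg (not_lt.1 h5) h3.le
    rw [h4] at h6
    exact absurd h6 (not_le.2 (mul_neg_of_neg_of_pos huv hvw))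
  exact ⟨h2 _ _ _ _ (hc p), h2 _ _ _ _ (by rw [mul_comm]; exact hc p)⟩

omit [LinearOrder K] [IsStrictOrderedRing K] in
/-- The ideal form of the strong Lefschetz property. -/
theorem slp_ideal (h : Dual Z D φ) {c : Fin (n + 1) → K}
    (hx : ∀ p, ev Z (H500R2.WLP.lin c) p ≠ 0) {b : Fin (n + 1) → K} {i : ℕ} (hi : 2 * i ≤ D)
    (hP : PCond (phiC Z D φ c) D i (W515.SLP.lin b)) :
    (∀ f : MvPolynomial (Fin (n + 1)) K, f.IsHomogeneous i →
        H500R2.WLP.lin b ^ (D - 2 * i) * f ∈ IZ Z ⊔ Ideal.span {H500R2.WLP.lin c} →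
          f ∈ IZ Z ⊔ Ideal.span {H500R2.WLP.lin c}) ∧
      (∀ g : MvPolynomial (Fin (n + 1)) K, g.IsHomogeneous (D - i) →
        ∃ f : MvPolynomial (Fin (n + 1)) K, f.IsHomogeneous i ∧
          g - H500R2.WLP.lin b ^ (D - 2 * i) * f ∈
            IZ Z ⊔ Ideal.span {H500R2.WLP.lin c}) := by
  have hlf : ∀ f : MvPolynomial (Fin (n + 1)) K, f.IsHomogeneous i →
      (H500R2.WLP.lin b ^ (D - 2 * i) * f).IsHomogeneous (D - i) := by
    intro f hf
    have h1 := ((lin_isHomogeneous b).pow (D - 2 * i)).mul hf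
    have e1 : 1 * (D - 2 * i) + i = D - i := by omega
    rwa [e1] at h1
  constructor
  · intro f hf h1
    rw [link h hx hf]
    exact inj_of_PCond (k := D - 2 * i) (by omega) hP hf ((link h hx (hlf f hf)).1 h1)
  · intro g hg
    have e2 : D - i = i + (D - 2 * i) := by omega
    obtain ⟨f, hf, hf2⟩ := surj_of_inj (k := D - 2 * i) (φ := phiC Z D φ c) (D := D) deg_phiC
      (lin_hom b) (i := i) (by omega) (by
        intro u hu hu2
        have e3 : D - (i + (D - 2 * i)) = i := by omega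
        rw [e3] at hu
        exact inj_of_PCond (k := D - 2 * i) (by omega) hP hu hu2) (h := g)
        (by rw [← e2]; exact hg)
    exact ⟨f, hf, (link h hx (hg.sub (hlf f hf))).2 hf2⟩

end

end Pool.Agent.TH274.PT
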