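import Pool.Agent.TH274.PT.Link
import Pool.Agent.TH274.MA.Pencil
import Pool.Agent.W515.SLP.Pts

/-!
# Openness of the injectivity condition in the linear form that cuts the points
-/

open MvPolynomial Finset Module

namespace Pool.Agent.TH274.PT

open Pool.Agent.W515.SLP Pool.Agent.H500R2.WLP Pool.Agent.TH274.MA

variable {K : Type*} [Field K] {n : ℕ}

/-- Multiplication by a function as a map on pairs, first component. -/
noncomputable def fstMul {ι : Type*} (V : Submodule K (ι → K)) (l : ι → K) :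
    (V × V) →ₗ[K] (ι → K) :=
  ((LinearMap.mulRight K l).comp V.subtype).comp (LinearMap.fst K V V)

/-- Multiplication by a function as a map on pairs, second component. -/
noncomputable def sndMul {ι : Type*} (V : Submodule K (ι → K)) (l : ι → K) :
    (V × V) →ₗ[K] (ι → K) :=
  ((LinearMap.mulRight K l).comp V.subtype).comp (LinearMap.snd K V V)

lemma fstMul_apply {ι : Type*} (V : Submodule K (ι → K)) (l : ι → K) (q : V × V) :
    fstMul V l q = (q.1 : ι → K) * l := rfl

lemma sndMul_apply {ι : Type*} (V : Submodule K (ι → K)) (l : ι → K) (q : V × V) :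
    sndMul V l q = (q.2 : ι → K) * l := rfl

/-- The maps of the family. -/
noncomputable def fam (Z : Finset (Fin (n + 1) → K)) (V : Submodule K (Z → K)) (l : Z → K) :
    Fin (n + 1 + 1) → ((V × V) →ₗ[K] (Z → K)) :=
  Fin.cons (fstMul V l) (fun k => - sndMul V (ev Z (X k)))

lemma sum_fam (Z : Finset (Fin (n + 1) → K)) (V : Submodule K (Z → K)) (l : Z → K) (τ : K)
    (c : Fin (n + 1) → K) (q : V × V) :
    (∑ x, (Fin.cons τ c : Fin (n + 1 + 1) → K) x • fam Z V l x) q =
      τ • ((q.1 : Z → K) * l) - (q.2 : Z → K) * ev Z (H500R2.WLP.lin c) := by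
  rw [LinearMap.sum_apply, Fin.sum_univ_succ]
  simp only [fam, Fin.cons_zero, Fin.cons_succ, LinearMap.smul_apply, LinearMap.neg_apply,
    fstMul_apply, sndMul_apply]
  rw [sub_eq_add_neg]
  congr 1
  funext p
  simp only [Finset.sum_apply, Pi.smul_apply, Pi.neg_apply, Pi.mul_apply, smul_eq_mul,
    H500R2.WLP.lin, map_sum, map_mul, Finset.mul_sum]
  rw [← Finset.sum_neg_distrib]
  apply Finset.sum_congr rfl
  intro k _
  rw [ev_apply Z (C (c k)), eval_C]
  ring

/-- The good condition for a pair of linear forms. -/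
def GoodPair (Z : Finset (Fin (n + 1) → K)) (i : ℕ) (l x : Z → K) : Prop :=
  ∀ f ∈ Rd Z i, ∀ g ∈ Rd Z i, f * l = g * x → ∃ u ∈ Rd Z (i - 1), f = u * x

theorem opn [Infinite K] (Z : Finset (Fin (n + 1) → K)) (hZ : ∀ p ∈ Z, p ≠ 0) {i : ℕ}
    (hi : 1 ≤ i) (b c0 : Fin (n + 1) → K)
    (hx0 : ∀ p, ev Z (H500R2.WLP.lin c0) p ≠ 0)
    (hgood : GoodPair Z i (ev Z (H500R2.WLP.lin b)) (ev Z (H500R2.WLP.lin c0))) :
    ∃ F : MvPolynomial (Fin (n + 1)) K, F ≠ 0 ∧ ∀ c : Fin (n + 1) → K, eval c F ≠ 0 →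
      (∀ p, ev Z (H500R2.WLP.lin c) p ≠ 0) ∧
      GoodPair Z i (ev Z (H500R2.WLP.lin b)) (ev Z (H500R2.WLP.lin c)) := by
  classical
  set l := ev Z (H500R2.WLP.lin b) with hl
  set V := Rd Z i with hV
  have hmul : ∀ (a : Fin (n + 1) → K) (u : Z → K), u ∈ Rd Z (i - 1) →
      u * ev Z (H500R2.WLP.lin a) ∈ V := by
    intro a u hu
    have h1 := rd_mono_mul Z (i - 1) 1 u _ hu (rd_one_lin Z a)
    rwa [Nat.sub_add_cancel hi] at h1
  obtain ⟨Q, hQ, hmax⟩ := exists_poly_max (fam Z V l)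
  set F1 := (finSuccEquiv K (n + 1) Q).leadingCoeff with hF1
  have hF1ne : F1 ≠ 0 := by
    rw [hF1, Ne, Polynomial.leadingCoeff_eq_zero]
    intro h
    exact hQ ((map_eq_zero_iff _ (finSuccEquiv K (n + 1)).injective).1 h)
  refine ⟨F1 * ∏ p ∈ Z, H500R2.WLP.lin p, mul_ne_zero hF1ne (Finset.prod_ne_zero_iff.2
    fun p hp => Pool.Agent.W515.SLP.lin_ne_zero p (hZ p hp)), ?_⟩
  intro c hc
  rw [map_mul, map_prod] at hc
  have hc1 : eval c F1 ≠ 0 := left_ne_zero_of_mul hc
  have hc2 : ∀ p ∈ Z, eval c (H500R2.WLP.lin p) ≠ 0 :=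
    Finset.prod_ne_zero_iff.1 (right_ne_zero_of_mul hc)
  have hx : ∀ p : Z, ev Z (H500R2.WLP.lin c) p ≠ 0 := by
    intro p
    rw [ev_apply, ← eval_lin_comm]
    exact hc2 p.1 p.2
  refine ⟨hx, ?_⟩
  -- a nonzero `τ`
  obtain ⟨τ, hτ0, hτ⟩ : ∃ τ : K, τ ≠ 0 ∧ eval (Fin.cons τ c : Fin (n + 1 + 1) → K) Q ≠ 0 := by
    have hP : Polynomial.map (eval c) (finSuccEquiv K (n + 1) Q) ≠ 0 := by
      intro h
      apply hc1
      have h1 := congrArg (fun P => Polynomial.coeff P (finSuccEquiv K (n + 1) Q).natDegree) h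
      simp only [Polynomial.coeff_map, Polynomial.coeff_zero] at h1
      exact h1
    obtain ⟨τ, hτ⟩ : ∃ τ, (Polynomial.map (eval c) (finSuccEquiv K (n + 1) Q) *
        Polynomial.X).eval τ ≠ 0 := by
      by_contra hcon
      push Not at hcon
      exact mul_ne_zero hP Polynomial.X_ne_zero
        (Polynomial.funext fun t => by rw [hcon t, Polynomial.eval_zero])
    rw [Polynomial.eval_mul, Polynomial.eval_X] at hτ
    refine ⟨τ, right_ne_zero_of_mul hτ, ?_⟩
    rw [eval_eq_eval_mv_eval']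
    exact left_ne_zero_of_mul hτ
  have hrank := hmax _ hτ (Fin.cons 1 c0)
  set S0 := ∑ x, (Fin.cons 1 c0 : Fin (n + 1 + 1) → K) x • fam Z V l x with hS0
  set S1 := ∑ x, (Fin.cons τ c : Fin (n + 1 + 1) → K) x • fam Z V l x with hS1
  have e0 := LinearMap.finrank_range_add_finrank_ker S0
  have e1 := LinearMap.finrank_range_add_finrank_ker S1
  -- the trivial kernel
  let tr : ∀ (t : K) (a : Fin (n + 1) → K), Rd Z (i - 1) →ₗ[K] (V × V) := fun t a =>
    { toFun := fun u => (⟨(u : Z → K) * ev Z (H500R2.WLP.lin a), hmul a _ u.2⟩,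
        t • ⟨(u : Z → K) * l, hmul b _ u.2⟩)
      map_add' := by
        intro u v
        apply Prod.ext
        · apply Subtype.ext
          simp [add_mul]
        · apply Subtype.ext
          simp [add_mul]
      map_smul' := by
        intro r u
        apply Prod.ext
        · apply Subtype.ext
          simp
        · apply Subtype.ext
          change t • ((r • (u : Z → K)) * l) = r • (t • ((u : Z → K) * l))
          rw [smul_mul_assoc, smul_comm] }
  have htr0 : LinearMap.ker S0 ≤ LinearMap.range (tr 1 c0) := by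
    rintro ⟨f, g⟩ hfg
    rw [LinearMap.mem_ker, hS0, sum_fam, one_smul, sub_eq_zero] at hfg
    obtain ⟨u, hu, hfu⟩ := hgood f f.2 g g.2 hfg
    refine ⟨⟨u, hu⟩, ?_⟩
    apply Prod.ext
    · apply Subtype.ext
      exact hfu.symm
    · apply Subtype.ext
      change ((1 : K) • (u * l) : Z → K) = g
      rw [one_smul]
      funext p
      have h1 := congrFun hfg p
      simp only [Pi.mul_apply] at h1 ⊢
      have h2 := congrFun hfu p
      simp only [Pi.mul_apply] at h2
      rw [h2] at h1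
      apply mul_right_cancel₀ (hx0 p)
      rw [← h1]
      ring
  have htr1 : LinearMap.range (tr τ c) ≤ LinearMap.ker S1 := by
    rintro _ ⟨u, rfl⟩
    rw [LinearMap.mem_ker, hS1, sum_fam]
    change τ • ((u : Z → K) * ev Z (H500R2.WLP.lin c) * l) -
      (τ • ((u : Z → K) * l)) * ev Z (H500R2.WLP.lin c) = 0
    funext p
    simp only [Pi.sub_apply, Pi.smul_apply, Pi.mul_apply, smul_eq_mul, Pi.zero_apply]
    ring
  have hinj : Function.Injective (tr τ c) := by
    intro u v huv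
    apply Subtype.ext
    funext p
    have h1 := congrArg (fun q : V × V => (q.1 : Z → K) p) huv
    exact mul_right_cancel₀ (hx p) h1
  have hd1 : finrank K (LinearMap.range (tr τ c)) = finrank K (Rd Z (i - 1)) :=
    LinearMap.finrank_range_of_inj hinj
  have hd0 : finrank K (LinearMap.ker S0) ≤ finrank K (Rd Z (i - 1)) :=
    (Submodule.finrank_mono htr0).trans (LinearMap.finrank_range_le _)
  have heq : LinearMap.range (tr τ c) = LinearMap.ker S1 := by
    apply Submodule.eq_of_le_of_finrank_le htr1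
    rw [hd1]
    omega
  intro f hf g hg hfg
  have hmem : ((⟨f, hf⟩, τ • ⟨g, hg⟩) : V × V) ∈ LinearMap.ker S1 := by
    rw [LinearMap.mem_ker, hS1, sum_fam]
    change τ • (f * l) - (τ • g) * ev Z (H500R2.WLP.lin c) = 0
    rw [hfg, smul_mul_assoc, sub_self]
  rw [← heq] at hmem
  obtain ⟨u, hu⟩ := hmem
  refine ⟨u, u.2, ?_⟩
  have h1 := congrArg (fun q : V × V => (q.1 : Z → K)) hu
  exact h1.symm

/-- The good condition in terms of the ideals. -/
lemma good_iff (Z : Finset (Fin (n + 1) → K)) {i : ℕ} (hi : 1 ≤ i) (b c : Fin (n + 1) → K) :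
    GoodPair Z i (ev Z (H500R2.WLP.lin b)) (ev Z (H500R2.WLP.lin c)) ↔
      ∀ f : MvPolynomial (Fin (n + 1)) K, f.IsHomogeneous i →
        H500R2.WLP.lin b * f ∈ IZ Z ⊔ Ideal.span {H500R2.WLP.lin c} →
          f ∈ IZ Z ⊔ Ideal.span {H500R2.WLP.lin c} := by
  obtain ⟨i, rfl⟩ : ∃ i', i = i' + 1 := ⟨i - 1, by omega⟩
  constructor
  · intro h f hf hlf
    have hlf' : (H500R2.WLP.lin b * f).IsHomogeneous (i + 1 + 1) := by
      have := (lin_isHomogeneous b).mul hf
      rwa [Nat.add_comm 1] at this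
    obtain ⟨g, hg, hge⟩ := (mem_J Z c (i + 1) _ hlf').1 hlf
    rw [mem_J Z c i f hf]
    exact h _ ((mem_Rd Z _ _).2 ⟨f, hf, rfl⟩) g hg (by rw [← hge, map_mul, mul_comm])
  · intro h f hf g hg hfg
    obtain ⟨f', hf', rfl⟩ := (mem_Rd Z _ _).1 hf
    have hlf' : (H500R2.WLP.lin b * f').IsHomogeneous (i + 1 + 1) := by
      have := (lin_isHomogeneous b).mul hf'
      rwa [Nat.add_comm 1] at this
    exact (mem_J Z c i f' hf').1 (h f' hf' ((mem_J Z c (i + 1) _ hlf').2
      ⟨g, hg, by rw [← hfg, map_mul, mul_comm]⟩))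

end Pool.Agent.TH274.PT
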