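import Pool.Agent.TH274.PT.Main
import Pool.Agent.TH274.GR.Iso

/-!
# Gorenstein point sets with a small entry of the h-vector
-/

open MvPolynomial Finset Module

namespace Pool.Agent.TH274.PT

open Pool.Agent.W515.SLP Pool.Agent.H500R2.WLP Pool.Agent.TH274.MA Pool.Agent.TH274.GR

variable {K : Type*} [Field K] {n : ℕ}

/-- The Hilbert function of the reduction. -/
lemma hil_phiC {Z : Finset (Fin (n + 1) → K)} {D : ℕ} {φ : Z → K} (h : Dual Z D φ)
    {c : Fin (n + 1) → K} (hx : ∀ p, ev Z (H500R2.WLP.lin c) p ≠ 0) (j : ℕ) :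
    hil (phiC Z D φ c) (j + 1) + finrank K (Rd Z j) = finrank K (Rd Z (j + 1)) := by
  set x := ev Z (H500R2.WLP.lin c) with hxdef
  set M : Submodule K (Z → K) := (Rd Z j).map (LinearMap.mulRight K x) with hM
  have hMle : M ≤ Rd Z (j + 1) := by
    rintro _ ⟨u, hu, rfl⟩
    exact rd_mono_mul Z j 1 u x hu (rd_one_lin Z c)
  have hMd : finrank K M = finrank K (Rd Z j) := by
    refine LinearEquiv.finrank_eq (Submodule.equivMapOfInjective _ ?_ _).symm
    intro u v huv
    funext p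
    exact mul_right_cancel₀ (hx p) (congrFun huv p)
  -- two maps with the same kernel
  have e1 := LinearMap.finrank_range_add_finrank_ker ((annI (phiC Z D φ c)).mkQ.comp
    (homogeneousSubmodule (Fin (n + 1)) K (j + 1)).subtype)
  have e2 := LinearMap.finrank_range_add_finrank_ker ((M.mkQ.comp (ev Z).toLinearMap).comp
    (homogeneousSubmodule (Fin (n + 1)) K (j + 1)).subtype)
  have hker : LinearMap.ker ((annI (phiC Z D φ c)).mkQ.comp
      (homogeneousSubmodule (Fin (n + 1)) K (j + 1)).subtype) =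
      LinearMap.ker ((M.mkQ.comp (ev Z).toLinearMap).comp
        (homogeneousSubmodule (Fin (n + 1)) K (j + 1)).subtype) := by
    ext g
    rw [LinearMap.mem_ker, LinearMap.mem_ker]
    have h1 := link h hx g.2
    rw [mem_J Z c j _ g.2] at h1
    constructor
    · intro h2
      refine (Submodule.Quotient.mk_eq_zero M).2 ?_
      obtain ⟨u, hu, hgu⟩ := h1.2 ((Submodule.Quotient.mk_eq_zero (annI (phiC Z D φ c))).1 h2)
      exact ⟨u, hu, hgu.symm⟩
    · intro h2
      refine (Submodule.Quotient.mk_eq_zero (annI (phiC Z D φ c))).2 ?_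
      have h3 : ev Z (g : MvPolynomial (Fin (n + 1)) K) ∈ M :=
        (Submodule.Quotient.mk_eq_zero M).1 h2
      obtain ⟨u, hu, hgu⟩ := Submodule.mem_map.1 h3
      exact h1.1 ⟨u, hu, hgu.symm⟩
  have e3 : hil (phiC Z D φ c) (j + 1) = finrank K (LinearMap.range ((annI (phiC Z D φ c)).mkQ.comp
      (homogeneousSubmodule (Fin (n + 1)) K (j + 1)).subtype)) := by
    rw [LinearMap.range_comp, Submodule.range_subtype]
    rfl
  have e4 : LinearMap.range ((M.mkQ.comp (ev Z).toLinearMap).comp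
      (homogeneousSubmodule (Fin (n + 1)) K (j + 1)).subtype) = (Rd Z (j + 1)).map M.mkQ := by
    rw [LinearMap.range_comp, Submodule.range_subtype, Submodule.map_comp]
    rfl
  have e5 := finrank_two (Rd Z (j + 1)) ⊥ M bot_le
  have e6 : ∀ S : Submodule K (Z → K), finrank K (S.map (⊥ : Submodule K (Z → K)).mkQ) =
      finrank K S := by
    intro S
    refine LinearEquiv.finrank_eq (Submodule.equivMapOfInjective _ ?_ _).symm
    rw [← LinearMap.ker_eq_bot, Submodule.ker_mkQ]
  rw [e6, e6, inf_eq_right.2 hMle] at e5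
  rw [hker] at e1
  rw [e4] at e2
  omega

/-- The duality of a Gorenstein point set. -/
theorem exists_dual' {Z : Finset (Fin (n + 1) → K)} {D : ℕ} (hD : 1 ≤ D)
    (hH : finrank K (Rd Z D) = Z.card) (hH' : finrank K (Rd Z (D - 1)) < Z.card)
    {c1 : Fin (n + 1) → K}
    (h : ∀ p ∈ Z, eval p (H500R2.WLP.lin c1) ≠ 0) (s : MvPolynomial (Fin (n + 1)) K)
    (hs1 : s ∉ red Z c1) (hs2 : ∀ i, X i * s ∈ red Z c1)
    (hs3 : ∀ f : MvPolynomial (Fin (n + 1)) K, (∀ i, X i * f ∈ red Z c1) →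
        ∃ a : K, f - C a * s ∈ red Z c1) :
    ∃ φ : resc Z c1 → K, Dual (resc Z c1) D φ := by
  classical
  have hIZ : ∀ c, red Z c = IZ (resc Z c1) ⊔ Ideal.span {H500R2.WLP.lin c} := by
    intro c
    rw [IZ_resc h]
    rfl
  simp only [hIZ] at hs1 hs2 hs3
  have h0 := resc_one h
  obtain ⟨hR0, hR1, hmul, -, -, -⟩ := Rd_props (resc Z c1) c1 h0
  obtain ⟨r, htop', hne, hcod, hsoc⟩ := TD.gor_data (resc Z c1) c1 h0 s hs1 hs2 hs3
  have hmono : ∀ {a b : ℕ}, a ≤ b → Rd (resc Z c1) a ≤ Rd (resc Z c1) b :=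
    fun hab => R_mono (Rd (resc Z c1)) hR1 hmul hab
  have hcard : (resc Z c1).card ≤ Z.card := by
    unfold resc
    exact Finset.card_image_le
  have hfr : finrank K (resc Z c1 → K) = (resc Z c1).card := by
    rw [Module.finrank_fintype_fun_eq_card, Fintype.card_coe]
  have hDtop : Rd (resc Z c1) D = ⊤ := by
    apply Submodule.eq_top_of_finrank_eq
    apply le_antisymm (Submodule.finrank_le _)
    rw [finrank_resc h, hH, hfr]
    exact hcard
  have hceq : (resc Z c1).card = Z.card := by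
    rw [← hfr, ← finrank_top K (resc Z c1 → K), ← hDtop, finrank_resc h, hH]
  have hDne : Rd (resc Z c1) (D - 1) ≠ ⊤ := by
    intro h1
    have h2 : finrank K (Rd (resc Z c1) (D - 1)) = (resc Z c1).card := by
      rw [h1, finrank_top, hfr]
    rw [finrank_resc h, hceq] at h2
    omega
  have hs : r = D := by
    apply le_antisymm
    · by_contra hcon
      apply hne (by omega)
      rw [eq_top_iff, ← hDtop]
      exact hmono (by omega)
    · by_contra hcon
      apply hDne
      rw [eq_top_iff, ← htop']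
      exact hmono (by omega)
  subst hs
  obtain ⟨f1, hf1, hf1'⟩ := hcod hD
  obtain ⟨ψ, hψ, hdual⟩ := duality (Rd (resc Z c1)) hR0 hR1 hmul r hD htop' f1 hf1 hf1' hsoc
  exact ⟨ψ, hD, hR1, htop', hψ, hdual⟩

/-- Injectivity in the degrees `≤ i` and surjectivity in the degrees `≥ D - i - 1`. -/
def InjSurj {K : Type*} [Field K] {n : ℕ} (J : Ideal (MvPolynomial (Fin (n + 1)) K))
    (D i : ℕ) : Prop :=
  ∃ L : MvPolynomial (Fin (n + 1)) K, L.IsHomogeneous 1 ∧
    (∀ d ≤ i, ∀ f : MvPolynomial (Fin (n + 1)) K, f.IsHomogeneous d → L * f ∈ J → f ∈ J) ∧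
    (∀ d, D ≤ d + i + 1 → ∀ g : MvPolynomial (Fin (n + 1)) K, g.IsHomogeneous (d + 1) →
      ∃ f : MvPolynomial (Fin (n + 1)) K, f.IsHomogeneous d ∧ g - L * f ∈ J)

/-- **Main theorem for small entries of the h-vector.** -/
theorem main_small [Infinite K] {Z : Finset (Fin (n + 1) → K)} {D : ℕ} (hG : GorPts Z)
    (hD : 1 ≤ D)
    (hH : finrank K (Rd Z D) = Z.card) (hH' : finrank K (Rd Z (D - 1)) < Z.card)
    {i : ℕ} (hi : 2 * i + 1 ≤ D)
    (hs : finrank K (Rd Z (i + 1)) ≤ finrank K (Rd Z i) + min (D + 1) (2 * (D - (i + 1))))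
    (c : Fin (n + 1) → K) (hc : ∀ p ∈ Z, eval p (H500R2.WLP.lin c) ≠ 0) :
    InjSurj (red Z c) D i := by
  obtain ⟨c1, h, s, hs1, hs2, hs3⟩ := hG
  obtain ⟨φ, hdual⟩ := exists_dual' hD hH hH' h s hs1 hs2 hs3
  have hIZ : red Z c = IZ (resc Z c1) ⊔ Ideal.span {H500R2.WLP.lin c} := by
    rw [IZ_resc h]
    rfl
  have hx := resc_ev h hc
  have h1 := hil_phiC hdual hx i
  rw [finrank_resc h, finrank_resc h] at h1
  obtain ⟨b, hb⟩ := exists_inj (φ := phiC (resc Z c1) D φ c) (D := D) (i := i) (p := 1)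
    deg_phiC hi (by omega) (by omega) (by omega)
  refine ⟨H500R2.WLP.lin b, lin_isHomogeneous b, ?_, ?_⟩
  · intro d hd
    rw [hIZ]
    exact (inj_iff hdual hx b d).1 (inj_down deg_phiC (by omega) hd hb)
  · intro d hd g hg
    rw [hIZ]
    by_cases h2 : D < d + 1
    · refine ⟨0, isHomogeneous_zero _ _ _, ?_⟩
      rw [mul_zero, sub_zero, link hdual hx hg]
      exact annP_of_gt deg_phiC h2 hg
    · obtain ⟨f, hf, hf2⟩ := surj_of_inj (k := 1) (φ := phiC (resc Z c1) D φ c) (D := D) deg_phiC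
        (lin_hom b) (i := d) (by omega) (by
        intro u hu hu2
        rw [pow_one] at hu2
        exact inj_down deg_phiC (i := i) (by omega) (by omega) hb u hu hu2) hg
      rw [pow_one] at hf2
      refine ⟨f, hf, ?_⟩
      have h3 : (g - H500R2.WLP.lin b * f).IsHomogeneous (d + 1) := by
        have := (lin_isHomogeneous b).mul hf
        rw [Nat.add_comm 1] at this
        exact hg.sub this
      rw [link hdual hx h3]
      exact hf2

/-- Symmetry of the h-vector. -/
theorem symm_points {Z : Finset (Fin (n + 1) → K)} {D : ℕ} (hG : GorPts Z)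
    (hD : 1 ≤ D)
    (hH : finrank K (Rd Z D) = Z.card) (hH' : finrank K (Rd Z (D - 1)) < Z.card)
    (c : Fin (n + 1) → K) (hc : ∀ p ∈ Z, eval p (H500R2.WLP.lin c) ≠ 0)
    {i : ℕ} (hi : 1 ≤ i) (hi2 : i + 1 ≤ D) :
    finrank K (Rd Z (D - i)) + finrank K (Rd Z (i - 1)) =
      finrank K (Rd Z (D - i - 1)) + finrank K (Rd Z i) := by
  obtain ⟨c1, h, s, hs1, hs2, hs3⟩ := hG
  obtain ⟨φ, hdual⟩ := exists_dual' hD hH hH' h s hs1 hs2 hs3
  have hx := resc_ev h hc
  have h1 := hil_phiC hdual hx (i - 1)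
  have h2 := hil_phiC hdual hx (D - i - 1)
  have e1 : i - 1 + 1 = i := by omega
  have e2 : D - i - 1 + 1 = D - i := by omega
  rw [e1, finrank_resc h, finrank_resc h] at h1
  rw [e2, finrank_resc h, finrank_resc h] at h2
  have h3 := hil_symm (φ := phiC (resc Z c1) D φ c) (D := D) (j := i) deg_phiC (by omega)
  omega

/-- The weak Lefschetz property from the middle degree. -/
lemma wlp_of_injSurj {J : Ideal (MvPolynomial (Fin (n + 1)) K)} {D : ℕ}
    (h : InjSurj J D ((D - 1) / 2)) : WLP J := by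
  obtain ⟨L, hL, h1, h2⟩ := h
  refine ⟨L, hL, fun d => ?_⟩
  by_cases hd : d ≤ (D - 1) / 2
  · exact Or.inl (h1 d hd)
  · exact Or.inr (h2 d (by omega))

end Pool.Agent.TH274.PT
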