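import Pool.Agent.TH274.PT.Link
import Pool.Agent.TH274.PT.Open
import Pool.Agent.TH274.FL.Sec
import Pool.Agent.TH274.FL.Forms

/-!
# Hyperplane sections of Gorenstein point sets
-/

open Finset Module

namespace Pool.Agent.TH274.PT

open Pool.Agent.H500R2.WLP Pool.Agent.TH274.FL

variable {K : Type*} [Field K] {n : ℕ} {Z : Finset (Fin (n + 1) → K)} {D : ℕ} {φ : Z → K}

/-- The functions vanishing on `S`. -/
def van {ι : Type*} (S : Finset ι) : Submodule K (ι → K) where
  carrier := {f | ∀ p ∈ S, f p = 0}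
  add_mem' := fun {a b} ha hb p hp => by rw [Pi.add_apply, ha p hp, hb p hp, add_zero]
  zero_mem' := fun _ _ => rfl
  smul_mem' := fun c f hf p hp => by rw [Pi.smul_apply, hf p hp, smul_zero]

/-- The functions of degree `j` vanishing on `S`. -/
noncomputable def Jd (Z : Finset (Fin (n + 1) → K)) (S : Finset Z) (j : ℕ) : Submodule K (Z → K) :=
  Rd Z j ⊓ van S

lemma Dual.one0 (_h : Dual Z D φ) : (1 : Z → K) ∈ Rd Z 0 := by
  rw [rd_zero]
  exact Submodule.mem_span_singleton_self _

lemma Dual.onej (h : Dual Z D φ) (j : ℕ) : (1 : Z → K) ∈ Rd Z j := h.mono (Nat.zero_le j) h.one0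

lemma Dual.orth (h : Dual Z D φ) {u : Z → K} (hu : u ∈ Rd Z (D - 1)) : ∑ p, φ p * u p = 0 := by
  have hpos := h.pos
  have h1 := (h.dual (D - 1) (by omega) 1).2 (by rw [Nat.sub_self]; exact h.one0) u hu
  rw [← h1]
  exact Finset.sum_congr rfl fun p _ => by rw [Pi.one_apply, mul_one]

/-- Separators for `S` in degree `j`. -/
def Sep (Z : Finset (Fin (n + 1) → K)) [DecidableEq Z] (S : Finset Z) (e : Z → Z → K) (j : ℕ) :
    Prop :=
  ∀ p ∈ S, e p ∈ Rd Z j ∧ ∀ q ∈ S, e p q = if p = q then 1 else 0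

variable [DecidableEq Z] {S : Finset Z} {e : Z → Z → K} {i : ℕ}

lemma sub_sep (h : Dual Z D φ) (he : Sep Z S e (i - 1)) {j : ℕ} (hj : i - 1 ≤ j) {w : Z → K}
    (hw : w ∈ Rd Z j) : w - ∑ p ∈ S, w p • e p ∈ Jd Z S j := by
  refine Submodule.mem_inf.2 ⟨?_, ?_⟩
  · exact Submodule.sub_mem _ hw (Submodule.sum_mem _ fun p hp =>
      Submodule.smul_mem _ _ (h.mono hj (he p hp).1))
  · intro q hq
    rw [Pi.sub_apply, Finset.sum_apply, Finset.sum_eq_single_of_mem q hq]
    · rw [Pi.smul_apply, (he q hq).2 q hq, if_pos rfl, smul_eq_mul, mul_one, sub_self]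
    · intro p hp hpq
      rw [Pi.smul_apply, (he p hp).2 q hq, if_neg hpq, smul_zero]

/-- The ideal of `S` is generated in low degree. -/
lemma gen_one (h : Dual Z D φ) (hi : 1 ≤ i) (he : Sep Z S e (i - 1)) {j : ℕ} (hj : i ≤ j) :
    Jd Z S (j + 1) ≤ Rd Z 1 * Jd Z S j := by
  have key : ∀ v ∈ Rd Z 1 * Rd Z j, v - ∑ p ∈ S, v p • e p ∈ Rd Z 1 * Jd Z S j := by
    intro v hv
    refine Submodule.mul_induction_on hv ?_ ?_
    · intro y hy w hw
      have h1 := sub_sep h he (j := j) (by omega) hw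
      have e1 : y * w - ∑ p ∈ S, (y * w) p • e p =
          y * (w - ∑ p ∈ S, w p • e p) + ∑ p ∈ S, w p • (1 * ((y - y p • 1) * e p)) := by
        rw [mul_sub, Finset.mul_sum]
        have e2 : ∀ p ∈ S, w p • ((1 : Z → K) * ((y - y p • 1) * e p)) =
            y * (w p • e p) - (y * w) p • e p := by
          intro p _
          funext q
          simp only [Pi.smul_apply, Pi.mul_apply, Pi.sub_apply, Pi.one_apply, smul_eq_mul]
          ring
        rw [Finset.sum_congr rfl e2, Finset.sum_sub_distrib]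
        abel
      rw [e1]
      refine Submodule.add_mem _ (Submodule.mul_mem_mul hy h1) (Submodule.sum_mem _ fun p hp =>
        Submodule.smul_mem _ _ (Submodule.mul_mem_mul h.one ?_))
      refine Submodule.mem_inf.2 ⟨?_, ?_⟩
      · have h2 : y - y p • (1 : Z → K) ∈ Rd Z 1 :=
          Submodule.sub_mem _ hy (Submodule.smul_mem _ _ h.one)
        exact h.mono (by omega) (rd_mono_mul Z 1 (i - 1) _ _ h2 (he p hp).1)
      · intro q hq
        rw [Pi.mul_apply, (he p hp).2 q hq]
        by_cases hpq : p = q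
        · subst hpq
          simp
        · rw [if_neg hpq, mul_zero]
    · intro a b ha hb
      have e1 : a + b - ∑ p ∈ S, (a + b) p • e p =
          (a - ∑ p ∈ S, a p • e p) + (b - ∑ p ∈ S, b p • e p) := by
        simp only [Pi.add_apply, add_smul, Finset.sum_add_distrib]
        abel
      rw [e1]
      exact Submodule.add_mem _ ha hb
  intro v hv
  obtain ⟨hv1, hv2⟩ := Submodule.mem_inf.1 hv
  have h1 := key v (by rw [← rd_succ]; exact hv1)
  rwa [Finset.sum_eq_zero (fun p hp => by rw [hv2 p hp, zero_smul]), sub_zero] at h1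

lemma gen_all (h : Dual Z D φ) (hi : 1 ≤ i) (he : Sep Z S e (i - 1)) (r : ℕ) :
    Jd Z S (i + r) ≤ Rd Z r * Jd Z S i := by
  induction r with
  | zero =>
    intro v hv
    have := Submodule.mul_mem_mul h.one0 hv
    rwa [one_mul] at this
  | succ r ih =>
    refine (gen_one h hi he (j := i + r) (by omega)).trans ?_
    refine (Submodule.mul_le.2 fun a ha b hb => Submodule.mul_mem_mul ha (ih hb)).trans ?_
    rw [← mul_assoc, ← rd_succ]

/-- The common kernel of the forms. -/
lemma common_kernel (h : Dual Z D φ) (hi : 1 ≤ i) (hD : 2 * i + 1 ≤ D)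
    (he : Sep Z S e (i - 1)) {lam : Z → K} {C : Finset Z} (hSC : S ∪ C = univ)
    (hdis : Disjoint S C) (hS : ∀ p ∈ S, lam p = 0) (hC : ∀ p ∈ C, lam p ≠ 0)
    {f : Z → K} (hf : f ∈ Jd Z S i)
    (hfk : ∀ a ∈ Rd Z (D - 2 * i - 1), ∀ l ∈ Rd Z 1, ∀ g ∈ Jd Z S i,
      qf (fun p => φ p / lam p) C a l f g = 0) :
    ∃ s ∈ Rd Z (i - 1), f = s * lam := by
  classical
  -- the functional
  set L : (Z → K) → K := fun v => ∑ p ∈ C, φ p / lam p * f p * v p with hL
  have hLadd : ∀ a b, L (a + b) = L a + L b := by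
    intro a b
    simp only [hL, Pi.add_apply, mul_add, Finset.sum_add_distrib]
  have hLsmul : ∀ (c : K) (a : Z → K), L (c • a) = c * L a := by
    intro c a
    simp only [hL, Pi.smul_apply, smul_eq_mul, Finset.mul_sum]
    exact Finset.sum_congr rfl fun p _ => by ring
  have hL1 : ∀ v ∈ Rd Z (D - 2 * i) * Jd Z S i, L v = 0 := by
    intro v hv
    have e1 : D - 2 * i = (D - 2 * i - 1) + 1 := by omega
    rw [e1, rd_succ] at hv
    refine Submodule.mul_induction_on hv ?_ ?_
    · intro u hu g hg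
      refine Submodule.mul_induction_on hu ?_ ?_
      · intro l hl a ha
        rw [← hfk a ha l hl g hg]
        simp only [hL, qf, Pi.mul_apply]
        exact Finset.sum_congr rfl fun p _ => by ring
      · intro a b ha hb
        rw [add_mul, hLadd, ha, hb, add_zero]
    · intro a b ha hb
      rw [hLadd, ha, hb, add_zero]
  have hL2 : ∀ v ∈ Jd Z S (D - i), L v = 0 := by
    intro v hv
    apply hL1
    have e1 : D - i = i + (D - 2 * i) := by omega
    rw [e1] at hv
    exact gen_all h hi he _ hv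
  set s : Z → K := fun p => if lam p = 0 then - L (e p) / φ p else f p / lam p with hs
  have hs1 : s ∈ Rd Z (D - 1 - (D - i)) := by
    rw [← h.dual (D - i) (by omega)]
    intro w hw
    have h1 := hL2 _ (sub_sep h he (j := D - i) (by omega) hw)
    have h2 : L (w - ∑ p ∈ S, w p • e p) = L w - ∑ p ∈ S, w p * L (e p) := by
      have h3 : ∀ T : Finset Z, L (∑ p ∈ T, w p • e p) = ∑ p ∈ T, w p * L (e p) := by
        intro T
        induction T using Finset.induction_on with
        | empty => simp [hL]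
        | insert a T ha ih =>
          rw [Finset.sum_insert ha, Finset.sum_insert ha, hLadd, hLsmul, ih]
      have h4 : w - ∑ p ∈ S, w p • e p = w + (-1 : K) • ∑ p ∈ S, w p • e p := by
        rw [neg_one_smul, sub_eq_add_neg]
      rw [h4, hLadd, hLsmul, h3]
      ring
    rw [h2] at h1
    rw [← hSC, Finset.sum_union hdis]
    have h5 : ∑ p ∈ S, φ p * s p * w p = - ∑ p ∈ S, w p * L (e p) := by
      rw [← Finset.sum_neg_distrib]
      apply Finset.sum_congr rfl
      intro p hp
      have h6 := h.ne p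
      simp only [hs, hS p hp, if_true]
      field_simp
    have h6 : ∑ p ∈ C, φ p * s p * w p = L w := by
      apply Finset.sum_congr rfl
      intro p hp
      simp only [hs, if_neg (hC p hp)]
      ring
    rw [h5, h6]
    linear_combination h1
  have e2 : D - 1 - (D - i) = i - 1 := by omega
  rw [e2] at hs1
  refine ⟨s, hs1, ?_⟩
  funext p
  have hp : p ∈ S ∪ C := by rw [hSC]; exact mem_univ _
  rcases Finset.mem_union.1 hp with hp | hp
  · rw [(Submodule.mem_inf.1 hf).2 p hp, Pi.mul_apply, hS p hp, mul_zero]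
  · have h1 := hC p hp
    rw [Pi.mul_apply]
    simp only [hs, if_neg h1]
    rw [div_mul_cancel₀ _ h1]

end Pool.Agent.TH274.PT
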