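import Pool.Agent.TH274.PT.Main
import Pool.Agent.TH274.PT.Small
import Pool.Agent.TH274.PT.Section

/-!
# Unimodality from injectivity
-/

open MvPolynomial Finset Module

namespace Pool.Agent.TH274.PT

open Pool.Agent.W515.SLP Pool.Agent.H500R2.WLP Pool.Agent.TH274.MA Pool.Agent.TH274.GR

section

variable {K : Type*} [Field K] {m : ℕ} {φ : MvPolynomial (Fin m) K →ₗ[K] K} {D : ℕ}

/-- An injective multiplication makes the Hilbert function grow. -/
lemma hil_le_of_inj {a : Fin m → K} {j : ℕ} (hb : Inj φ (W515.SLP.lin a) j) :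
    hil φ j ≤ hil φ (j + 1) := by
  have hmul : annI φ ≤ (annI φ).comap (LinearMap.mulLeft K (W515.SLP.lin a)) := by
    intro g hg
    exact AnnP.mul_left hg _
  let T := (annI φ).mapQ (annI φ) (LinearMap.mulLeft K (W515.SLP.lin a)) hmul
  have hT : ∀ g, T ((annI φ).mkQ g) = (annI φ).mkQ (W515.SLP.lin a * g) := fun g => rfl
  set W := (homogeneousSubmodule (Fin m) K j).map (annI φ).mkQ with hW
  have hfin : ∀ j, Module.Finite K (homogeneousSubmodule (Fin m) K j) := fun j =>
    Module.Finite.iff_fg.2 (homogeneousSubmodule_fg _ _ j)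
  have hfW : Module.Finite K W := by
    have := hfin j
    exact Module.Finite.map _ _
  have hfW' : Module.Finite K ((homogeneousSubmodule (Fin m) K (j + 1)).map (annI φ).mkQ) := by
    have := hfin (j + 1)
    exact Module.Finite.map _ _
  have hle : LinearMap.range (T.domRestrict W) ≤
      (homogeneousSubmodule (Fin m) K (j + 1)).map (annI φ).mkQ := by
    rintro _ ⟨⟨_, g, hg, rfl⟩, rfl⟩
    refine ⟨W515.SLP.lin a * g, ?_, ?_⟩
    · have h1 : (W515.SLP.lin a * g).IsHomogeneous (1 + j) :=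
        (W515.SLP.lin_hom a).mul hg
      rwa [Nat.add_comm] at h1
    · rfl
  have hinj : Function.Injective (T.domRestrict W) := by
    rw [← LinearMap.ker_eq_bot, LinearMap.ker_eq_bot']
    rintro ⟨_, g, hg, rfl⟩ h0
    have h1 : (annI φ).mkQ (W515.SLP.lin a * g) = 0 := h0
    have h2 : W515.SLP.lin a * g ∈ annI φ := (Submodule.Quotient.mk_eq_zero _).1 h1
    apply Subtype.ext
    exact (Submodule.Quotient.mk_eq_zero _).2 (hb g hg h2)
  have h1 := Submodule.finrank_mono hle
  rw [LinearMap.finrank_range_of_inj hinj] at h1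
  exact h1

end

/-- The `h`-vector: the first difference of the Hilbert function. -/
noncomputable def hv {K : Type*} [Field K] {n : ℕ} (Z : Finset (Fin (n + 1) → K)) (j : ℕ) : ℕ :=
  finrank K (Rd Z j) - if j = 0 then 0 else finrank K (Rd Z (j - 1))

/-- Unimodal sequences. -/
def Unimodal (h : ℕ → ℕ) : Prop :=
  ∃ k, (∀ i j, i ≤ j → j ≤ k → h i ≤ h j) ∧ ∀ i j, k ≤ i → i ≤ j → h j ≤ h i

lemma unimodal_of {h : ℕ → ℕ} {D : ℕ} (hasc : ∀ j, 2 * j + 1 ≤ D → h j ≤ h (j + 1))
    (hsym : ∀ j ≤ D, h (D - j) = h j) (hz : ∀ j, D < j → h j = 0) : Unimodal h := by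
  refine ⟨(D + 1) / 2, ?_, ?_⟩
  · intro i j hij
    induction j, hij using Nat.le_induction with
    | base => intro _; exact le_rfl
    | succ j _ ih => intro hj; exact (ih (by omega)).trans (hasc j (by omega))
  · intro i j hi hij
    induction j, hij using Nat.le_induction with
    | base => exact le_rfl
    | succ j hj ih =>
      refine le_trans ?_ ih
      by_cases h1 : j + 1 ≤ D
      · rw [← hsym (j + 1) h1, ← hsym j (by omega)]
        have h2 := hasc (D - (j + 1)) (by omega)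
        have e : D - (j + 1) + 1 = D - j := by omega
        rwa [e] at h2
      · rw [hz (j + 1) (by omega)]
        exact Nat.zero_le _

section

variable {K : Type*} [Field K] {n : ℕ} {Z : Finset (Fin (n + 1) → K)} {D : ℕ} {φ : Z → K}

lemma hv_eq (h : Dual Z D φ) {c : Fin (n + 1) → K}
    (hx : ∀ p, ev Z (H500R2.WLP.lin c) p ≠ 0) (j : ℕ) :
    hv Z (j + 1) = hil (phiC Z D φ c) (j + 1) := by
  have h1 := hil_phiC h hx j
  unfold hv
  rw [if_neg (Nat.succ_ne_zero j), Nat.add_sub_cancel]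
  omega

lemma span_one_le {V : Type*} [AddCommGroup V] [Module K V] (x : V) :
    finrank K (Submodule.span K {x}) ≤ 1 := by
  have h1 := finrank_span_le_card (R := K) ({x} : Set V)
  simpa using h1

lemma hv_zero (hne : Rd Z (D - 1) ≠ ⊤) : hv Z 0 = 1 := by
  unfold hv
  rw [if_pos rfl, Nat.sub_zero, rd_zero]
  apply finrank_span_singleton
  intro h1
  apply hne
  rw [eq_top_iff]
  intro u _
  have h2 : u = 0 := by
    funext p
    have h3 := congrFun h1 p
    rw [Pi.one_apply, Pi.zero_apply] at h3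
    exact absurd h3 one_ne_zero
  rw [h2]
  exact Submodule.zero_mem _

lemma hil_zero_le (ψ : MvPolynomial (Fin n) K →ₗ[K] K) : hil ψ 0 ≤ 1 := by
  unfold hil cd
  rw [homogeneousSubmodule_zero, Submodule.one_eq_span, Submodule.map_span, Set.image_singleton]
  exact span_one_le _

theorem hv_unimodal (h : Dual Z D φ) (hne : Rd Z (D - 1) ≠ ⊤) {b c : Fin (n + 1) → K}
    (hx : ∀ p, ev Z (H500R2.WLP.lin c) p ≠ 0)
    (hb : Inj (phiC Z D φ c) (W515.SLP.lin b) ((D - 1) / 2)) : Unimodal (hv Z) := by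
  have hpos := h.pos
  have hD1 : 1 ≤ hv Z D := by
    have h1 : finrank K (Rd Z (D - 1)) < finrank K (Rd Z D) := by
      rw [h.top]
      exact Submodule.finrank_lt_finrank_of_lt (lt_top_iff_ne_top.2 hne)
    unfold hv
    rw [if_neg (by omega)]
    omega
  have h0 : hil (phiC Z D φ c) 0 = 1 := by
    apply le_antisymm (hil_zero_le _)
    have h1 := hil_symm (φ := phiC Z D φ c) (D := D) (j := 0) deg_phiC (Nat.zero_le D)
    rw [Nat.sub_zero] at h1
    obtain ⟨D', rfl⟩ : ∃ D', D = D' + 1 := ⟨D - 1, by omega⟩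
    rw [← h1, ← hv_eq h hx]
    exact hD1
  have heq : ∀ j, hv Z j = hil (phiC Z D φ c) j := by
    intro j
    rcases Nat.eq_zero_or_pos j with rfl | hj
    · rw [h0, hv_zero hne]
    · obtain ⟨j', rfl⟩ : ∃ j', j = j' + 1 := ⟨j - 1, by omega⟩
      exact hv_eq h hx j'
  apply unimodal_of (D := D)
  · intro j hj
    rw [heq, heq]
    exact hil_le_of_inj (inj_down deg_phiC (i := (D - 1) / 2) (by omega) (by omega) hb)
  · intro j hj
    rw [heq, heq]
    exact hil_symm deg_phiC hj
  · intro j hj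
    have h1 : Rd Z (j - 1) = ⊤ := by
      rw [eq_top_iff, ← h.top]
      exact h.mono (by omega)
    have h2 : Rd Z j = ⊤ := by
      rw [eq_top_iff, ← h.top]
      exact h.mono (by omega)
    unfold hv
    rw [if_neg (by omega), h1, h2, Nat.sub_self]

end

/-- **Unimodality under the sign condition.** -/
theorem main_sign_uni {K : Type*} [Field K] [LinearOrder K] [IsStrictOrderedRing K] {n : ℕ}
    {Z : Finset (Fin (n + 1) → K)} {D : ℕ} (hD : 2 ≤ D) (hG : GorPts Z) (hI : Interp Z D)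
    (φ : (Fin (n + 1) → K) → K) (hφ : ∃ p ∈ Z, φ p ≠ 0)
    (hrel : ∀ g : MvPolynomial (Fin (n + 1)) K, g.IsHomogeneous (D - 1) →
      ∑ p ∈ Z, φ p * eval p g = 0)
    (c0 a : Fin (n + 1) → K) (hc0 : ∀ p ∈ Z, eval p (H500R2.WLP.lin c0) ≠ 0)
    (ha : ∀ p ∈ Z, eval p (H500R2.WLP.lin a) ≠ 0)
    (hcard : (Z.filter (fun p => φ p * eval p (H500R2.WLP.lin c0) *
      eval p (H500R2.WLP.lin a) ^ (D % 2) < 0)).card ≤ finrank K (Rd Z (D / 2 - 1))) :
    Unimodal (hv Z) := by
  classical
  obtain ⟨c1, h, s, hs1, hs2, hs3⟩ := hG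
  have hdual := exists_dual (by omega) hI h s hs1 hs2 hs3 φ hφ hrel
  have hcard' := (card_resc hD hI h φ c0 a).trans hcard
  rw [← finrank_resc h] at hcard'
  have hch := slp_chamber hdual hD c0 a (resc_ev h ha) hcard'
  have hx0 := resc_ev h hc0
  obtain ⟨b, hb⟩ := hch c0 (fun p => mul_self_pos.2 (hx0 p))
  have hinj : Inj (phiC (resc Z c1) D (fun p => wt Z c1 D φ p) c0) (W515.SLP.lin b)
      ((D - 1) / 2) := by
    intro f hf h1
    exact inj_of_PCond (k := 1) (D := D) (by omega) (hb ((D - 1) / 2) (by omega)) hf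
      (by rw [pow_one]; exact h1)
  have hne : Rd (resc Z c1) (D - 1) ≠ ⊤ := by
    intro htop
    obtain ⟨p, hp, -⟩ := hφ
    have hp' : scl c1 p • p ∈ resc Z c1 := mem_resc.2 ⟨p, hp, rfl⟩
    have h1 := hdual.orth (u := Pi.single ⟨_, hp'⟩ 1) (by rw [htop]; exact Submodule.mem_top)
    rw [Finset.sum_eq_single (⟨_, hp'⟩ : resc Z c1)] at h1
    · rw [Pi.single_eq_same, mul_one] at h1
      exact hdual.ne _ h1
    · intro q _ hq
      rw [Pi.single_eq_of_ne hq, mul_zero]
    · intro h2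
      exact absurd (mem_univ _) h2
  have huni := hv_unimodal hdual hne hx0 hinj
  have e : hv (resc Z c1) = hv Z := by
    funext j
    unfold hv
    rw [finrank_resc h, finrank_resc h]
  rwa [e] at huni

end Pool.Agent.TH274.PT
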